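import Pool.Agent.TH56.CT.Def

/-!
# Part III: an enumeration of the vertices of a tree by few caterpillars (job 3351)
-/

set_option autoImplicit false

namespace Pool.Agent.TH56.CT

namespace OrdAux

/-- the degree -/
noncomputable def dg {V : Type} (T : SimpleGraph V) (x : V) : ℕ := (T.neighborSet x).ncard

/-- partial enumerations; `e i` is the current vertex after the stage `i` -/
structure Part {V : Type} (T : SimpleGraph V) (r : V) (n : ℕ) (v : ℕ → V) (p : ℕ → ℕ)
    (Js : Finset ℕ) (e : ℕ → ℕ) : Prop where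
  zero : v 0 = r
  e0 : e 0 = 0
  sub : ∀ k ∈ Js, 1 ≤ k ∧ k ≤ n
  lt : ∀ i, 1 ≤ i → i ≤ n → p i < i
  inj : ∀ i j, i ≤ n → j ≤ n → v i = v j → i = j
  adj : ∀ i, 1 ≤ i → i ≤ n → T.Adj (v i) (v (p i))
  cas : ∀ i, 1 ≤ i → i ≤ n →
    (i ∉ Js ∧ p i = e (i - 1) ∧ dg T (v i) = 1 ∧ e i = e (i - 1)) ∨
    (i ∉ Js ∧ p i = e (i - 1) ∧ 2 ≤ dg T (v i) ∧ e i = i ∧
      ∀ y, T.Adj (v (e (i - 1))) y → dg T y = 1 → ∃ j < i, v j = y) ∨
    (i ∈ Js ∧ 2 ≤ dg T (v i) ∧ e i = i ∧ ∀ y, T.Adj (v (e (i - 1))) y → ∃ j < i, v j = y)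

section

variable {V : Type} {T : SimpleGraph V} {r : V} {n : ℕ} {v : ℕ → V} {p : ℕ → ℕ}
  {Js : Finset ℕ} {e : ℕ → ℕ}

theorem Part.e_le (h : Part T r n v p Js e) : ∀ i ≤ n, e i ≤ i := by
  intro i
  induction i with
  | zero => intro _; rw [h.e0]
  | succ i ih =>
    intro hi
    have h1 := ih (by omega)
    rcases h.cas (i + 1) (by omega) hi with ⟨-, -, -, h2⟩ | ⟨-, -, -, h2, -⟩ | ⟨-, -, h2, -⟩
    · rw [h2, Nat.add_sub_cancel]; omega
    · omega
    · omega

theorem Part.e_mono (h : Part T r n v p Js e) (k : ℕ) (hk : k ∈ Js) :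
    ∀ i, k ≤ i → i ≤ n → k ≤ e i := by
  intro i hki
  induction i, hki using Nat.le_induction with
  | base =>
    intro hi
    have hk1 := (h.sub k hk).1
    rcases h.cas k hk1 hi with ⟨h1, -⟩ | ⟨h1, -⟩ | ⟨-, -, h2, -⟩
    · exact absurd hk h1
    · exact absurd hk h1
    · omega
  | succ i hki ih =>
    intro hi
    have h1 := ih (by omega)
    rcases h.cas (i + 1) (by omega) hi with ⟨-, -, -, h2⟩ | ⟨-, -, -, h2, -⟩ | ⟨-, -, h2, -⟩
    · rw [h2, Nat.add_sub_cancel]; omega
    · omega
    · omega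

/-- the indices after the current one are leaves -/
theorem Part.after (h : Part T r n v p Js e) : ∀ i ≤ n, ∀ j, e i < j → j ≤ i →
    dg T (v j) = 1 ∧ p j = e i := by
  intro i
  induction i with
  | zero => intro _ j h1 h2; rw [h.e0] at h1; omega
  | succ i ih =>
    intro hi j h1 h2
    rcases h.cas (i + 1) (by omega) hi with ⟨-, h5, h3, h4⟩ | ⟨-, -, -, h4, -⟩ | ⟨-, -, h4, -⟩
    · rw [Nat.add_sub_cancel] at h4 h5
      rw [h4] at h1 ⊢
      rcases Nat.lt_or_ge j (i + 1) with h6 | h6
      · exact ih (by omega) j h1 (by omega)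
      · have : j = i + 1 := by omega
        subst this
        exact ⟨h3, h5⟩
    · omega
    · omega

theorem Part.cur (h : Part T r n v p Js e) : ∀ i ≤ n, e i = 0 ∨ 2 ≤ dg T (v (e i)) := by
  intro i
  induction i with
  | zero => intro _; exact Or.inl h.e0
  | succ i ih =>
    intro hi
    rcases h.cas (i + 1) (by omega) hi with ⟨-, -, -, h4⟩ | ⟨-, -, h3, h4, -⟩ | ⟨-, h3, h4, -⟩
    · rw [h4, Nat.add_sub_cancel]; exact ih (by omega)
    · right; rw [h4]; exact h3
    · right; rw [h4]; exact h3

theorem leaf_unique {x y z : V} (h : dg T x = 1) (hy : T.Adj x y) (hz : T.Adj x z) : y = z := by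
  obtain ⟨a, ha⟩ := Set.ncard_eq_one.1 h
  have h1 : y ∈ T.neighborSet x := hy
  have h2 : z ∈ T.neighborSet x := hz
  rw [ha] at h1 h2
  rw [Set.mem_singleton_iff.1 h1, Set.mem_singleton_iff.1 h2]

/-- the leaves next to the former current vertices have been visited -/
theorem Part.leaves (h : Part T r n v p Js e) : ∀ i ≤ n, ∀ j ≤ i, j ≠ e i →
    ∀ y, T.Adj (v j) y → dg T y = 1 → ∃ j' ≤ i, v j' = y := by
  intro i
  induction i with
  | zero => intro _ j h1 h2; rw [h.e0] at h2; omega
  | succ i ih =>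
    intro hi j h1 h2 y hy hd
    rcases h.cas (i + 1) (by omega) hi with ⟨-, h5, h3, h4⟩ | ⟨-, -, -, h4, h5⟩ | ⟨-, -, h4, h5⟩
    · rw [Nat.add_sub_cancel] at h4 h5
      rcases Nat.lt_or_ge j (i + 1) with h6 | h6
      · rw [h4] at h2
        obtain ⟨j', h7, h8⟩ := ih (by omega) j (by omega) h2 y hy hd
        exact ⟨j', by omega, h8⟩
      · have : j = i + 1 := by omega
        subst this
        have h7 := h.lt (i + 1) (by omega) hi
        refine ⟨p (i + 1), by omega, ?_⟩
        exact leaf_unique h3 (h.adj (i + 1) (by omega) hi) hy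
    · rw [Nat.add_sub_cancel] at h5
      by_cases h6 : j = e i
      · rw [h6] at hy
        obtain ⟨j', h7, h8⟩ := h5 y hy hd
        exact ⟨j', by omega, h8⟩
      · obtain ⟨j', h7, h8⟩ := ih (by omega) j (by omega) h6 y hy hd
        exact ⟨j', by omega, h8⟩
    · rw [Nat.add_sub_cancel] at h5
      by_cases h6 : j = e i
      · rw [h6] at hy
        obtain ⟨j', h7, h8⟩ := h5 y hy
        exact ⟨j', by omega, h8⟩
      · obtain ⟨j', h7, h8⟩ := ih (by omega) j (by omega) h6 y hy hd
        exact ⟨j', by omega, h8⟩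

theorem ext (h : Part T r n v p Js e) (y : V) (q : ℕ) (J : Finset ℕ) (en : ℕ) (hq : q ≤ n)
    (hy : ∀ j ≤ n, v j ≠ y) (hadj : T.Adj y (v q))
    (hc : (J = Js ∧ q = e n ∧ dg T y = 1 ∧ en = e n) ∨
      (J = Js ∧ q = e n ∧ 2 ≤ dg T y ∧ en = n + 1 ∧
        ∀ z, T.Adj (v (e n)) z → dg T z = 1 → ∃ j ≤ n, v j = z) ∨
      (J = insert (n + 1) Js ∧ 2 ≤ dg T y ∧ en = n + 1 ∧
        ∀ z, T.Adj (v (e n)) z → ∃ j ≤ n, v j = z)) :
    Part T r (n + 1) (Function.update v (n + 1) y) (Function.update p (n + 1) q) J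
      (Function.update e (n + 1) en) := by
  have hv : ∀ i, i ≤ n → Function.update v (n + 1) y i = v i := fun i hi =>
    Function.update_of_ne (by omega) _ _
  have hp : ∀ i, i ≤ n → Function.update p (n + 1) q i = p i := fun i hi =>
    Function.update_of_ne (by omega) _ _
  have he : ∀ i, i ≤ n → Function.update e (n + 1) en i = e i := fun i hi =>
    Function.update_of_ne (by omega) _ _
  have hv1 : Function.update v (n + 1) y (n + 1) = y := Function.update_self _ _ _
  have hp1 : Function.update p (n + 1) q (n + 1) = q := Function.update_self _ _ _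
  have he1 : Function.update e (n + 1) en (n + 1) = en := Function.update_self _ _ _
  have hJ : ∀ i, i ≤ n → (i ∈ J ↔ i ∈ Js) := by
    intro i hi
    rcases hc with ⟨h1, -⟩ | ⟨h1, -⟩ | ⟨h1, -⟩
    · rw [h1]
    · rw [h1]
    · rw [h1, Finset.mem_insert]
      constructor
      · rintro (h2 | h2)
        · omega
        · exact h2
      · exact Or.inr
  have hn1 : n + 1 ∉ Js := fun hh => by have := (h.sub _ hh).2; omega
  refine ⟨?_, ?_, ?_, ?_, ?_, ?_, ?_⟩
  · rw [hv 0 (Nat.zero_le _)]; exact h.zero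
  · rw [he 0 (Nat.zero_le _)]; exact h.e0
  · intro k hk
    rcases hc with ⟨h1, -⟩ | ⟨h1, -⟩ | ⟨h1, -⟩
    · rw [h1] at hk
      have := h.sub k hk
      omega
    · rw [h1] at hk
      have := h.sub k hk
      omega
    · rw [h1, Finset.mem_insert] at hk
      rcases hk with h2 | h2
      · omega
      · have := h.sub k h2
        omega
  · intro i h1 h2
    rcases Nat.lt_or_ge n i with h3 | h3
    · have : i = n + 1 := by omega
      subst this
      rw [hp1]; omega
    · rw [hp i h3]; exact h.lt i h1 h3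
  · intro i j hi hj' hee
    rcases Nat.lt_or_ge n i with h3 | h3
    · have h3' : i = n + 1 := by omega
      subst h3'
      rcases Nat.lt_or_ge n j with h4 | h4
      · omega
      · rw [hv1, hv j h4] at hee
        exact absurd hee.symm (hy j h4)
    · rcases Nat.lt_or_ge n j with h4 | h4
      · have h4' : j = n + 1 := by omega
        subst h4'
        rw [hv1, hv i h3] at hee
        exact absurd hee (hy i h3)
      · rw [hv i h3, hv j h4] at hee
        exact h.inj i j h3 h4 hee
  · intro i h1 h2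
    rcases Nat.lt_or_ge n i with h3 | h3
    · have : i = n + 1 := by omega
      subst this
      rw [hp1, hv1, hv q hq]; exact hadj
    · rw [hp i h3, hv i h3]
      have := h.lt i h1 h3
      rw [hv (p i) (by omega)]
      exact h.adj i h1 h3
  · intro i h1 h2
    rcases Nat.lt_or_ge n i with h3 | h3
    · have : i = n + 1 := by omega
      subst this
      have hen := h.e_le n le_rfl
      rw [Nat.add_sub_cancel, hp1, he1, hv1, he n le_rfl, hv (e n) hen]
      rcases hc with ⟨h4, h5, h6, h7⟩ | ⟨h4, h5, h6, h7, h8⟩ | ⟨h4, h6, h7, h8⟩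
      · left
        rw [h4]
        exact ⟨hn1, h5, h6, h7⟩
      · right; left
        rw [h4]
        refine ⟨hn1, h5, h6, h7, fun z hz hd => ?_⟩
        obtain ⟨j, hj, hj2⟩ := h8 z hz hd
        exact ⟨j, by omega, by rw [hv j hj]; exact hj2⟩
      · right; right
        rw [h4]
        refine ⟨Finset.mem_insert_self _ _, h6, h7, fun z hz => ?_⟩
        obtain ⟨j, hj, hj2⟩ := h8 z hz
        exact ⟨j, by omega, by rw [hv j hj]; exact hj2⟩
    · have hei := h.e_le (i - 1) (by omega)
      rw [hp i h3, he i h3, he (i - 1) (by omega), hv i h3, hv (e (i - 1)) (by omega), hJ i h3]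
      rcases h.cas i h1 h3 with h4 | ⟨h4, h5, h6, h7, h8⟩ | ⟨h4, h6, h7, h8⟩
      · exact Or.inl h4
      · right; left
        refine ⟨h4, h5, h6, h7, fun z hz hd => ?_⟩
        obtain ⟨j, hj, hj2⟩ := h8 z hz hd
        exact ⟨j, hj, by rw [hv j (by omega)]; exact hj2⟩
      · right; right
        refine ⟨h4, h6, h7, fun z hz => ?_⟩
        obtain ⟨j, hj, hj2⟩ := h8 z hz
        exact ⟨j, hj, by rw [hv j (by omega)]; exact hj2⟩

end

theorem exists_part {V : Type} [Fintype V] {T : SimpleGraph V} (hT : T.IsTree) (r : V) (n : ℕ)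
    (hn : n + 1 ≤ Fintype.card V) : ∃ v p Js e, Part T r n v p Js e := by
  classical
  induction n with
  | zero =>
    refine ⟨fun _ => r, fun _ => 0, ∅, fun _ => 0, rfl, rfl, ?_, ?_, ?_, ?_, ?_⟩
    · intro k hk
      simp at hk
    · intro i h1 h2; omega
    · intro i j hi hj _; omega
    · intro i h1 h2; omega
    · intro i h1 h2; omega
  | succ n ih =>
    obtain ⟨v, p, Js, e, h⟩ := ih (by omega)
    have hen := h.e_le n le_rfl
    have hpos : ∀ x y : V, T.Adj x y → dg T y ≠ 1 → 2 ≤ dg T y := by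
      intro x y hxy hne
      have h1 : 0 < dg T y := by
        unfold dg
        rw [Set.ncard_pos (Set.toFinite _)]
        exact ⟨x, hxy.symm⟩
      omega
    by_cases hc1 : ∃ y, T.Adj (v (e n)) y ∧ dg T y = 1 ∧ ∀ j ≤ n, v j ≠ y
    · obtain ⟨y, hy1, hy2, hy3⟩ := hc1
      exact ⟨_, _, _, _, ext h y (e n) Js (e n) hen hy3 hy1.symm (Or.inl ⟨rfl, rfl, hy2, rfl⟩)⟩
    · push Not at hc1
      by_cases hc : ∃ y, T.Adj (v (e n)) y ∧ ∀ j ≤ n, v j ≠ y
      · obtain ⟨y, hy1, hy3⟩ := hc
        have hd : dg T y ≠ 1 := by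
          intro hd
          obtain ⟨j, hj, hj2⟩ := hc1 y hy1 hd
          exact hy3 j hj hj2
        exact ⟨_, _, _, _, ext h y (e n) Js (n + 1) hen hy3 hy1.symm
          (Or.inr (Or.inl ⟨rfl, rfl, hpos _ _ hy1 hd, rfl, fun z hz hdz => hc1 z hz hdz⟩))⟩
      · push Not at hc
        -- the placed set
        let S : Set V := {x | ∃ j ≤ n, v j = x}
        have hS : ∃ z, z ∉ S := by
          by_contra hcon
          push Not at hcon
          have hsurj : Function.Surjective (fun i : Fin (n + 1) => v i) := by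
            intro x
            obtain ⟨j, hj, hx⟩ := hcon x
            exact ⟨⟨j, by omega⟩, hx⟩
          have := Fintype.card_le_of_surjective _ hsurj
          rw [Fintype.card_fin] at this
          omega
        obtain ⟨z, hz⟩ := hS
        have h0 : v 0 ∈ S := ⟨0, Nat.zero_le _, rfl⟩
        obtain ⟨W⟩ := hT.1.preconnected (v 0) z
        obtain ⟨d, -, hd1, hd2⟩ := W.exists_boundary_dart S h0 hz
        obtain ⟨q, hq, hqv⟩ := hd1
        have hda : T.Adj (v q) d.snd := by rw [hqv]; exact d.adj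
        have hqe : q ≠ e n := by
          intro hqe
          rw [hqe] at hda
          obtain ⟨j, hj, hj2⟩ := hc _ hda
          exact hd2 ⟨j, hj, hj2⟩
        have hd : dg T d.snd ≠ 1 := by
          intro hd
          obtain ⟨j, hj, hj2⟩ := h.leaves n le_rfl q hq hqe _ hda hd
          exact hd2 ⟨j, hj, hj2⟩
        refine ⟨_, _, _, _, ext h d.snd q (insert (n + 1) Js) (n + 1) hq ?_ hda.symm
          (Or.inr (Or.inr ⟨rfl, hpos _ _ hda hd, rfl, fun x hx => hc x hx⟩))⟩
        intro j hj hv
        exact hd2 ⟨j, hj, hv⟩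

end OrdAux

open OrdAux in
theorem ord : OrdStm := by
  classical
  intro V _ T hT hm
  have hcard : T.edgeSet.ncard + 1 = Fintype.card V := by
    have h1 := hT.card_edgeFinset
    have h2 : T.edgeSet.ncard = T.edgeFinset.card := by
      rw [Set.ncard_eq_toFinset_card']
      rfl
    rw [h2]; exact h1
  set m := T.edgeSet.ncard with hmdef
  have hne : Nonempty V := Fintype.card_pos_iff.1 (by omega)
  set D : Set V := {x : V | 2 ≤ (T.neighborSet x).ncard ∧
      {y : V | T.Adj x y ∧ 2 ≤ (T.neighborSet y).ncard}.ncard ≤ 1} with hD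
  obtain ⟨r, hr⟩ : ∃ r : V, D.Nonempty → r ∈ D := by
    by_cases hDn : D.Nonempty
    · exact ⟨hDn.some, fun _ => hDn.some_mem⟩
    · exact ⟨Classical.arbitrary V, fun h => absurd h hDn⟩
  obtain ⟨v, p, Js, e, h⟩ := exists_part hT r m (by omega)
  have hsurj : ∀ x : V, ∃ i ≤ m, v i = x := by
    have hinj : Function.Injective (fun i : Fin (m + 1) => v i) := by
      intro i j hij
      have := h.inj i j (by omega) (by omega) hij
      exact Fin.ext this
    have hbij : Function.Bijective (fun i : Fin (m + 1) => v i) :=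
      (Fintype.bijective_iff_injective_and_card _).mpr ⟨hinj, by rw [Fintype.card_fin]; exact hcard⟩
    intro x
    obtain ⟨i, hi⟩ := hbij.2 x
    exact ⟨i, by omega, hi⟩
  have hadj : ∀ x y : V, T.Adj x y → ∃ i, 1 ≤ i ∧ i ≤ m ∧
      ((v i = x ∧ v (p i) = y) ∨ (v i = y ∧ v (p i) = x)) := by
    let g : ℕ → Sym2 V := fun i => s(v i, v (p i))
    have hginj : Set.InjOn g (Finset.Icc 1 m : Finset ℕ) := by
      intro i hi j hj hij
      simp only [Finset.coe_Icc, Set.mem_Icc] at hi hj
      have hpi := h.lt i hi.1 hi.2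
      have hpj := h.lt j hj.1 hj.2
      rcases Sym2.eq_iff.mp hij with ⟨h1, -⟩ | ⟨h1, h2⟩
      · exact h.inj i j hi.2 hj.2 h1
      · have e1 := h.inj i (p j) hi.2 (by omega) h1
        have e2 := h.inj (p i) j (by omega) hj.2 h2
        omega
    have hsub : (Finset.Icc 1 m).image g ⊆ T.edgeFinset := by
      intro x he
      obtain ⟨i, hi, rfl⟩ := Finset.mem_image.mp he
      rw [Finset.mem_Icc] at hi
      rw [SimpleGraph.mem_edgeFinset]
      exact h.adj i hi.1 hi.2
    have hc : T.edgeFinset.card ≤ ((Finset.Icc 1 m).image g).card := by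
      rw [Finset.card_image_of_injOn hginj, Nat.card_Icc]
      have h1 := hT.card_edgeFinset
      omega
    have heq := Finset.eq_of_subset_of_card_le hsub hc
    intro x y hxy
    have : s(x, y) ∈ T.edgeFinset := by
      rw [SimpleGraph.mem_edgeFinset]; exact hxy
    rw [← heq] at this
    obtain ⟨i, hi, he⟩ := Finset.mem_image.mp this
    rw [Finset.mem_Icc] at hi
    refine ⟨i, hi.1, hi.2, ?_⟩
    rcases Sym2.eq_iff.mp he with ⟨h1, h2⟩ | ⟨h1, h2⟩
    · exact Or.inl ⟨h1, h2⟩
    · exact Or.inr ⟨h1, h2⟩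
  -- the members of `D`
  have hDmem : ∀ i ≤ m, 1 ≤ e i → (∀ y, T.Adj (v (e i)) y → ∃ j ≤ i, v j = y) → v (e i) ∈ D := by
    intro i hi h1 hall
    have hei := h.e_le i hi
    have hdeg : 2 ≤ dg T (v (e i)) := by
      rcases h.cur i hi with h2 | h2
      · omega
      · exact h2
    refine ⟨hdeg, ?_⟩
    have hsub : {y : V | T.Adj (v (e i)) y ∧ 2 ≤ (T.neighborSet y).ncard} ⊆ {v (p (e i))} := by
      rintro y ⟨hy1, hy2⟩
      obtain ⟨j, hj, hjy⟩ := hall y hy1
      obtain ⟨t, ht1, ht2, ht3⟩ := hadj _ _ hy1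
      have hpt := h.lt t ht1 ht2
      rcases ht3 with ⟨h3, h4⟩ | ⟨h3, h4⟩
      · have := h.inj t (e i) ht2 (by omega) h3
        rw [this] at h4
        exact h4.symm
      · have e1 := h.inj t j ht2 (by omega) (h3.trans hjy.symm)
        have e2 := h.inj (p t) (e i) (by omega) (by omega) h4
        subst e1
        have h5 := h.after i hi t (by omega) hj
        have h6 : dg T y = 1 := by rw [← h3]; exact h5.1
        have h7 : 2 ≤ dg T y := hy2
        omega
    calc {y : V | T.Adj (v (e i)) y ∧ 2 ≤ (T.neighborSet y).ncard}.ncard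
        ≤ ({v (p (e i))} : Set V).ncard := Set.ncard_le_ncard hsub (Set.toFinite _)
      _ = 1 := Set.ncard_singleton _
  have hjmp : ∀ k ∈ Js, ∀ y, T.Adj (v (e (k - 1))) y → ∃ j < k, v j = y := by
    intro k hk
    obtain ⟨hk1, hk2⟩ := h.sub k hk
    rcases h.cas k hk1 hk2 with ⟨h1, -⟩ | ⟨h1, -⟩ | ⟨-, -, -, h2⟩
    · exact absurd hk h1
    · exact absurd hk h1
    · exact h2
  have hroot : ∀ k ∈ Js, 1 ≤ e (k - 1) := by
    intro k hk
    by_contra hcon
    have h0 : e (k - 1) = 0 := by omega
    obtain ⟨hk1, hk2⟩ := h.sub k hk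
    have hpk := h.lt k hk1 hk2
    have hak := h.adj k hk1 hk2
    by_cases hp0 : p k = 0
    · rw [hp0] at hak
      have h1 := hjmp k hk (v k) (by rw [h0]; exact hak.symm)
      obtain ⟨j, hj, hjv⟩ := h1
      have := h.inj j k (by omega) hk2 hjv
      omega
    · obtain ⟨h1, h2⟩ := h.after (k - 1) (by omega) (p k) (by omega) (by omega)
      have hpp := h.lt (p k) (by omega) (by omega)
      have h3 := leaf_unique h1 (h.adj (p k) (by omega) (by omega)) hak.symm
      have := h.inj _ _ (by omega) hk2 h3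
      omega
  refine ⟨v, p, Js, ⟨h.lt, h.sub, ?_⟩, h.inj, hsurj, hadj, ?_⟩
  · intro i hi1 hi2 hiJ
    have hpe : p i = e (i - 1) := by
      rcases h.cas i hi1 hi2 with ⟨-, h1, -⟩ | ⟨-, h1, -⟩ | ⟨h1, -⟩
      · exact h1
      · exact h1
      · exact absurd h1 hiJ
    rw [hpe]
    rcases Nat.lt_or_ge i 2 with h1 | h1
    · left
      have : i = 1 := by omega
      subst this
      rw [Nat.sub_self, h.e0]
    · rcases h.cas (i - 1) (by omega) (by omega) with ⟨h2, h3, -, h4⟩ | ⟨-, -, -, h4, -⟩ | ⟨-, -, h4, -⟩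
      · right
        exact ⟨h1, h2, by rw [h4, h3]⟩
      · left; omega
      · left; omega
  · rcases Finset.eq_empty_or_nonempty Js with hJ | ⟨k0, hk0⟩
    · left
      rw [hJ, Finset.card_empty]
    · right
      have hmemk : ∀ k ∈ Js, v (e (k - 1)) ∈ D := by
        intro k hk
        obtain ⟨hk1, hk2⟩ := h.sub k hk
        refine hDmem (k - 1) (by omega) (hroot k hk) fun y hy => ?_
        obtain ⟨j, hj, hjy⟩ := hjmp k hk y hy
        exact ⟨j, by omega, hjy⟩
      have hrD : r ∈ D := hr ⟨_, hmemk k0 hk0⟩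
      have hem : ∀ k ∈ Js, k ≤ e m := fun k hk => h.e_mono k hk m (h.sub k hk).2 le_rfl
      let I : Finset ℕ := insert 0 (insert (e m) (Js.image (fun k => e (k - 1))))
      have hI : I.card = Js.card + 2 := by
        have h1 : (Js.image (fun k => e (k - 1))).card = Js.card := by
          apply Finset.card_image_of_injOn
          have hlt : ∀ k ∈ Js, ∀ l ∈ Js, k < l → e (k - 1) < e (l - 1) := by
            intro k hk l hl hkl
            have h2 := h.e_mono k hk (l - 1) (by omega) (by have := h.sub l hl; omega)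
            have h3 := h.e_le (k - 1) (by have := h.sub k hk; omega)
            have := h.sub k hk
            omega
          intro k hk l hl hkl
          simp only at hkl
          rcases Nat.lt_trichotomy k l with h4 | h4 | h4
          · have := hlt k hk l hl h4
            omega
          · exact h4
          · have := hlt l hl k hk h4
            omega
        have h2 : e m ∉ Js.image (fun k => e (k - 1)) := by
          intro hcon
          obtain ⟨k, hk, he⟩ := Finset.mem_image.mp hcon
          have h3 := hem k hk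
          have h4 := h.sub k hk
          have h5 := h.e_le (k - 1) (by omega)
          omega
        have h3 : 0 ∉ insert (e m) (Js.image (fun k => e (k - 1))) := by
          intro hcon
          rcases Finset.mem_insert.mp hcon with h4 | h4
          · have := hem k0 hk0
            have := h.sub k0 hk0
            omega
          · obtain ⟨k, hk, he⟩ := Finset.mem_image.mp h4
            have := hroot k hk
            omega
        rw [Finset.card_insert_of_notMem h3, Finset.card_insert_of_notMem h2, h1]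
      have hIm : ∀ i ∈ I, i ≤ m ∧ v i ∈ D := by
        intro i hi
        rcases Finset.mem_insert.mp hi with rfl | hi
        · exact ⟨Nat.zero_le _, by rw [h.zero]; exact hrD⟩
        · rcases Finset.mem_insert.mp hi with rfl | hi
          · refine ⟨h.e_le m le_rfl, hDmem m le_rfl ?_ fun y _ => hsurj y⟩
            have := hem k0 hk0
            have := h.sub k0 hk0
            omega
          · obtain ⟨k, hk, rfl⟩ := Finset.mem_image.mp hi
            have h4 := h.sub k hk
            have h5 := h.e_le (k - 1) (by omega)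
            exact ⟨by omega, hmemk k hk⟩
      have hinj : Set.InjOn v (I : Set ℕ) := fun i hi j hj hij =>
        h.inj i j (hIm i hi).1 (hIm j hj).1 hij
      have hle : ((I.image v : Finset V) : Set V).ncard ≤ D.ncard := by
        apply Set.ncard_le_ncard _ (Set.toFinite _)
        intro x hx
        obtain ⟨i, hi, rfl⟩ := Finset.mem_image.mp (Finset.mem_coe.mp hx)
        exact (hIm i hi).2
      rw [Set.ncard_coe_finset, Finset.card_image_of_injOn hinj, hI] at hle
      exact hle

end Pool.Agent.TH56.CT
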