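import Pool.Agent.TH56.CT.Def

/-!
# Graceful supertrees of trees made of few caterpillars: assembly of the parts
-/

set_option autoImplicit false

namespace Pool.Agent.TH56.CT

theorem fin_main (hwrd : WrdStm) (hsup : SupStm) (hord : OrdStm) {V : Type} [Fintype V]
    {T : SimpleGraph V} (hT : T.IsTree) (h1 : 1 ≤ T.edgeSet.ncard) :
    ∃ J : ℕ, (J = 0 ∨ J + 2 ≤ {x : V | 2 ≤ (T.neighborSet x).ncard ∧
      {y : V | T.Adj x y ∧ 2 ≤ (T.neighborSet y).ncard}.ncard ≤ 1}.ncard) ∧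
      ∃ (M : ℕ) (T' : SimpleGraph (Fin (M + 1))), T'.IsTree ∧ Graceful T' ∧ T.IsContained T' ∧
        T'.edgeSet.ncard = M ∧ M ≤ T.edgeSet.ncard + 2 * J * (J + 1) := by
  classical
  obtain ⟨v, p, Js, hE, hinj, hsurj, hadj, hJ⟩ := hord V T hT h1
  set m : ℕ := T.edgeSet.ncard with hm
  refine ⟨Js.card, hJ, ?_⟩
  obtain ⟨M, c, s, hG, hM⟩ := hwrd m p Js h1 hE
  obtain ⟨T', t1, t2, t3, t4⟩ := hsup m p Js M c s h1 hE hG
  refine ⟨M, T', t1, t3, ?_, t2, hM⟩
  choose idx hidx1 hidx2 using hsurj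
  have hs : ∀ i ≤ m, s i < M + 1 := by
    intro i hi
    rcases hi.lt_or_eq with h0 | h0
    · have h2 := hG.mono i m h0 le_rfl
      rw [hG.last] at h2
      omega
    · rw [h0, hG.last]
      exact Nat.lt_succ_self _
  have hsinj : ∀ i j, i ≤ m → j ≤ m → s i = s j → i = j := by
    intro i j hi hj hij
    rcases Nat.lt_trichotomy i j with h | h | h
    · have := hG.mono i j h hj
      omega
    · exact h
    · have := hG.mono j i h hi
      omega
  have hvidx : ∀ i ≤ m, idx (v i) = i := fun i hi => hinj _ _ (hidx1 _) hi (hidx2 _)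
  refine ⟨⟨⟨fun x => ⟨s (idx x), hs _ (hidx1 x)⟩, ?_⟩, ?_⟩⟩
  · intro x y hxy
    obtain ⟨i, hi1, hi2, hi3⟩ := hadj x y hxy
    have hpi : p i ≤ m := (hE.lt i hi1 hi2).le.trans hi2
    rcases hi3 with ⟨ha, hb⟩ | ⟨ha, hb⟩
    · refine t4 i hi1 hi2 _ _ ?_ ?_
      · show s (idx x) = s i
        rw [← ha, hvidx i hi2]
      · show s (idx y) = s (p i)
        rw [← hb, hvidx _ hpi]
    · refine (t4 i hi1 hi2 _ _ ?_ ?_).symm
      · show s (idx y) = s i
        rw [← ha, hvidx i hi2]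
      · show s (idx x) = s (p i)
        rw [← hb, hvidx _ hpi]
  · intro x y hxy
    have h2 : s (idx x) = s (idx y) := congrArg (fun z : Fin _ => (z : ℕ)) hxy
    have h3 := hsinj _ _ (hidx1 x) (hidx1 y) h2
    rw [← hidx2 x, ← hidx2 y, h3]

end Pool.Agent.TH56.CT
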