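import Pool.Agent.TH56.CT.Def
import Pool.Agent.TH49.GT.Match

/-!
# Part II: the supertree on the steps (job 3350)
-/

set_option autoImplicit false

namespace Pool.Agent.TH56.CT

namespace SupAux

section

variable {c : ℕ → Bool}

lemma cn_zero (b : Bool) : cn c b 0 = 0 := by simp [cn]

lemma cn_succ (b : Bool) (t : ℕ) : cn c b (t + 1) = cn c b t + if c t = b then 1 else 0 := by
  unfold cn
  rw [Finset.range_add_one, Finset.filter_insert]
  split_ifs with h
  · rw [Finset.card_insert_of_notMem]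
    simp
  · rfl

lemma cn_add (t : ℕ) : cn c false t + cn c true t = t := by
  induction t with
  | zero => rw [cn_zero, cn_zero]
  | succ t ih =>
    rw [cn_succ, cn_succ]
    cases h : c t <;> simp <;> omega

lemma cn_mono (b : Bool) {x y : ℕ} (h : x ≤ y) : cn c b x ≤ cn c b y := by
  induction y, h using Nat.le_induction with
  | base => exact le_rfl
  | succ n _ ih => rw [cn_succ]; omega

lemma cn_lt {x y : ℕ} (h : x < y) : cn c (c x) x + 1 ≤ cn c (c x) y := by
  have h1 := cn_succ (c := c) (c x) x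
  rw [if_pos rfl] at h1
  have h2 := cn_mono (c := c) (c x) (show x + 1 ≤ y from h)
  omega

lemma cn_const {b : Bool} {x y : ℕ} (h : x ≤ y) (hc : ∀ v, x ≤ v → v < y → c v ≠ b) :
    cn c b y = cn c b x := by
  induction y, h using Nat.le_induction with
  | base => rfl
  | succ n hn ih =>
    rw [cn_succ, if_neg (hc n hn (by omega)), ih (fun v h1 h2 => hc v h1 (by omega))]
    omega

/-- the rank of a step in its class -/
def rk (c : ℕ → Bool) (t : ℕ) : ℕ := cn c (c t) t

/-- the labelling -/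
def lab (M : ℕ) (c : ℕ → Bool) (t : ℕ) : ℕ := if c t = false then rk c t else M - rk c t

lemma rk_le (t : ℕ) : rk c t ≤ t := by
  unfold rk
  have h := cn_add (c := c) t
  cases c t <;> omega

lemma rk_lt {x y : ℕ} (h : x < y) (hc : c x = c y) : rk c x < rk c y := by
  unfold rk
  have h1 := cn_lt (c := c) h
  rw [← hc]
  omega

/-- two steps of different classes -/
lemma rk_add {x y : ℕ} (h : x < y) (hc : c x ≠ c y) : x < rk c x + rk c y + 1 ∧
    rk c x + rk c y + 1 ≤ y := by
  unfold rk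
  have h1 := cn_lt (c := c) h
  have h2 := cn_mono (c := c) (c y) h.le
  have h3 := cn_add (c := c) x
  have h4 := cn_add (c := c) y
  cases hx : c x <;> cases hy : c y
  · rw [hx, hy] at hc; exact absurd rfl hc
  · rw [hx] at h1; rw [hy] at h2; omega
  · rw [hx] at h1; rw [hy] at h2; omega
  · rw [hx, hy] at hc; exact absurd rfl hc

lemma rk_base {x y : ℕ} (h : x < y) (hc : c x ≠ c y) (hb : ∀ v, x < v → v < y → c v = c y) :
    rk c x + rk c y + 1 = y := by
  unfold rk
  have h1 := cn_succ (c := c) (c x) x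
  rw [if_pos rfl] at h1
  have h2 : cn c (c x) y = cn c (c x) (x + 1) := by
    refine cn_const h fun v h3 h4 h5 => hc ?_
    rw [← h5]
    exact hb v h3 h4
  have h4 := cn_add (c := c) y
  cases hx : c x <;> cases hy : c y
  · rw [hx, hy] at hc; exact absurd rfl hc
  · rw [hx] at h1 h2; omega
  · rw [hx] at h1 h2; omega
  · rw [hx, hy] at hc; exact absurd rfl hc

lemma rk_le' {M x y : ℕ} (hx : x ≤ M) (hy : y ≤ M) (hc : c x ≠ c y) : rk c x + rk c y + 1 ≤ M := by
  rcases Nat.lt_trichotomy x y with h | h | h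
  · have := rk_add h hc; omega
  · rw [h] at hc; exact absurd rfl hc
  · have := rk_add h hc.symm; omega

lemma lab_diff {M x y : ℕ} (hx : x ≤ M) (hy : y ≤ M) (hc : c x ≠ c y) :
    Int.natAbs ((lab M c x : ℤ) - (lab M c y : ℤ)) = M - (rk c x + rk c y) := by
  have h := rk_le' hx hy hc
  unfold lab
  cases hx' : c x <;> cases hy' : c y
  · rw [hx', hy'] at hc; exact absurd rfl hc
  · simp only [if_true, Bool.true_eq_false, if_false]; omega
  · simp only [if_true, Bool.true_eq_false, if_false]; omega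
  · rw [hx', hy'] at hc; exact absurd rfl hc

lemma lab_le {M x : ℕ} (hx : x ≤ M) : lab M c x ≤ M := by
  have := rk_le (c := c) x
  unfold lab
  split_ifs <;> omega

lemma lab_inj {M x y : ℕ} (hx : x ≤ M) (hy : y ≤ M) (h : lab M c x = lab M c y) : x = y := by
  have h1 := rk_le (c := c) x
  have h2 := rk_le (c := c) y
  by_cases hc : c x = c y
  · have h3 : rk c x = rk c y := by
      unfold lab at h
      rw [← hc] at h
      split_ifs at h <;> omega
    rcases Nat.lt_trichotomy x y with h4 | h4 | h4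
    · have := rk_lt h4 hc; omega
    · exact h4
    · have := rk_lt h4 hc.symm; omega
  · have h3 := lab_diff hx hy hc
    have h4 := rk_le' hx hy hc
    rw [h] at h3
    omega

/-- the step with a given label -/
lemma lab_surj {M l : ℕ} (hl : l ≤ M) : ∃ t, t ≤ M ∧ lab M c t = l := by
  let D : Fin (M + 1) → Fin (M + 1) := fun t =>
    ⟨lab M c t.1, Nat.lt_succ_of_le (lab_le (Nat.le_of_lt_succ t.2))⟩
  have hD : Function.Injective D := by
    intro t t' h
    exact Fin.ext (lab_inj (Nat.le_of_lt_succ t.2) (Nat.le_of_lt_succ t'.2) (Fin.mk.inj_iff.mp h))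
  obtain ⟨t, ht⟩ := (Finite.surjective_of_injective hD) ⟨l, by omega⟩
  exact ⟨t.1, Nat.le_of_lt_succ t.2, Fin.mk.inj_iff.mp ht⟩

/-- the parent of a hole -/
lemma hole_par {M h r : ℕ} (hr : h < r) (hM : r ≤ M) : ∃ t, h < t ∧ t ≤ M ∧
    Int.natAbs ((lab M c h : ℤ) - (lab M c t : ℤ)) = M + 1 - r := by
  have h1 := cn_add (c := c) h
  cases hc : c h
  · -- the label grows
    have h2 : lab M c h = cn c false h := by
      unfold lab rk; rw [hc, if_pos rfl]
    obtain ⟨t, ht, h3⟩ := lab_surj (c := c) (M := M) (l := cn c false h + (M + 1 - r)) (by omega)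
    refine ⟨t, ?_, ht, by omega⟩
    by_contra h4
    have h5 : t ≠ h := by rintro rfl; omega
    have h6 : t < h := by omega
    have h7 := cn_lt (c := c) h6
    have h8 := cn_add (c := c) t
    cases hc' : c t
    · rw [hc'] at h7
      unfold lab rk at h3
      rw [hc', if_pos rfl] at h3
      omega
    · rw [hc'] at h7
      unfold lab rk at h3
      rw [hc', if_neg (by decide)] at h3
      omega
  · have h2 : lab M c h = M - cn c true h := by
      unfold lab rk; rw [hc, if_neg (by decide)]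
    obtain ⟨t, ht, h3⟩ := lab_surj (c := c) (M := M) (l := M - cn c true h - (M + 1 - r)) (by omega)
    refine ⟨t, ?_, ht, by omega⟩
    by_contra h4
    have h5 : t ≠ h := by rintro rfl; omega
    have h6 : t < h := by omega
    have h7 := cn_lt (c := c) h6
    have h8 := cn_add (c := c) t
    cases hc' : c t
    · rw [hc'] at h7
      unfold lab rk at h3
      rw [hc', if_pos rfl] at h3
      omega
    · rw [hc'] at h7
      unfold lab rk at h3
      rw [hc', if_neg (by decide)] at h3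
      omega

/-- the largest step of the other class -/
lemma base_par (h0 : c 0 = false) (h1 : c 1 = true) {t : ℕ} (ht : 1 ≤ t) :
    ∃ u, u < t ∧ c u ≠ c t ∧ ∀ v, u < v → v < t → c v = c t := by
  have hex : ((Finset.range t).filter (fun u => c u ≠ c t)).Nonempty := by
    cases hc : c t
    · refine ⟨1, ?_⟩
      rw [Finset.mem_filter, Finset.mem_range]
      refine ⟨?_, by rw [h1]; decide⟩
      rcases Nat.lt_or_ge 1 t with h | h
      · exact h
      · have : t = 1 := by omega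
        rw [this, h1] at hc
        exact absurd hc (by decide)
    · refine ⟨0, ?_⟩
      rw [Finset.mem_filter, Finset.mem_range]
      exact ⟨ht, by rw [h0]; decide⟩
  have hm := Finset.max'_mem _ hex
  rw [Finset.mem_filter, Finset.mem_range] at hm
  refine ⟨_, hm.1, hm.2, fun v h2 h3 => ?_⟩
  by_contra h4
  have h5 : v ∈ (Finset.range t).filter (fun u => c u ≠ c t) := by
    rw [Finset.mem_filter, Finset.mem_range]
    exact ⟨h3, h4⟩
  have h6 := Finset.le_max' _ v h5
  omega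

lemma base_unique {t u u' : ℕ} (h1 : u < t) (h2 : c u ≠ c t) (h3 : ∀ v, u < v → v < t → c v = c t)
    (h1' : u' < t) (h2' : c u' ≠ c t) (h3' : ∀ v, u' < v → v < t → c v = c t) : u = u' := by
  rcases Nat.lt_trichotomy u u' with h | h | h
  · exact absurd (h3 u' h h1') h2'
  · exact h
  · exact absurd (h3' u h h1) h2

/-- the pair (parent of t, index of the difference at t) -/
def Q (p : ℕ → ℕ) (Js : Finset ℕ) (M : ℕ) (c : ℕ → Bool) (s : ℕ → ℕ) (R : Finset ℕ)
    (φ : ℕ → ℕ) (t a d : ℕ) : Prop :=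
  (∃ k ∈ Js, t = s k ∧ a = s (p k) ∧ d = sg c s p k) ∨
  (∃ r ∈ R, t = φ r ∧ t < a ∧ a ≤ M ∧ d = r ∧
    Int.natAbs ((lab M c t : ℤ) - (lab M c a : ℤ)) = M + 1 - r) ∨
  ((∀ k ∈ Js, t ≠ s k) ∧ (∀ r ∈ R, t ≠ φ r) ∧ a < t ∧ c a ≠ c t ∧
    (∀ v, a < v → v < t → c v = c t) ∧ d = t)

end

section

variable {m : ℕ} {p : ℕ → ℕ} {Js : Finset ℕ} {M : ℕ} {c : ℕ → Bool} {s : ℕ → ℕ}

lemma s_ne (hG : Good m p Js M c s) {i j : ℕ} (hi : i ≤ m) (hj : j ≤ m) (h : s i = s j) :
    i = j := by
  rcases Nat.lt_trichotomy i j with h1 | h1 | h1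
  · have := hG.mono i j h1 hj; omega
  · exact h1
  · have := hG.mono j i h1 hi; omega

lemma s_le (hG : Good m p Js M c s) {i : ℕ} (hi : i ≤ m) : s i ≤ M := by
  rcases Nat.lt_or_ge i m with h | h
  · have := hG.mono i m h le_rfl
    have := hG.last
    omega
  · have : i = m := by omega
    rw [this, hG.last]

lemma facts (hE : Enum m p Js) (hG : Good m p Js M c s) {k : ℕ} (hk : k ∈ Js) :
    1 ≤ k ∧ k ≤ m ∧ p k < k ∧ s (p k) < s k ∧ s k ≤ M ∧ c (s k) ≠ c (s (p k)) ∧
      sg c s p k = rk c (s k) + rk c (s (p k)) + 1 ∧ 1 ≤ sg c s p k ∧ sg c s p k ≤ s k := by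
  obtain ⟨h1, h2⟩ := hE.sub k hk
  have h3 := hE.lt k h1 h2
  have h4 := hG.mono (p k) k h3 h2
  have h5 := hG.cls k h1 h2
  have h6 : sg c s p k = rk c (s k) + rk c (s (p k)) + 1 := rfl
  have h7 := rk_add h4 h5.symm
  exact ⟨h1, h2, h3, h4, s_le hG h2, h5, h6, by omega, by omega⟩

/-- the bijection -/
lemma exists_phi (hE : Enum m p Js) (hG : Good m p Js M c s) : ∃ (R : Finset ℕ) (φ : ℕ → ℕ),
    (∀ r ∈ R, (∃ k ∈ Js, r = s k) ∧ (∀ k ∈ Js, r ≠ sg c s p k)) ∧
    (∀ k ∈ Js, (∃ l ∈ Js, s k = sg c s p l) ∨ s k ∈ R) ∧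
    (∀ r ∈ R, (∃ k ∈ Js, φ r = sg c s p k) ∧ (∀ k ∈ Js, φ r ≠ s k) ∧ φ r < r) ∧
    (∀ r ∈ R, ∀ r' ∈ R, φ r = φ r' → r = r') ∧
    (∀ k ∈ Js, (∃ l ∈ Js, sg c s p k = s l) ∨ ∃ r ∈ R, φ r = sg c s p k) := by
  classical
  have hS : Set.InjOn (sg c s p) Js := fun k hk l hl h => hG.inj k hk l hl h
  have hSJ : Set.InjOn s Js := fun k hk l hl h =>
    s_ne hG (facts hE hG hk).2.1 (facts hE hG hl).2.1 h
  obtain ⟨S, hSd⟩ : ∃ S, S = Js.image (sg c s p) := ⟨_, rfl⟩
  obtain ⟨SJ, hSJd⟩ : ∃ SJ, SJ = Js.image s := ⟨_, rfl⟩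
  have hcS : S.card = Js.card := by rw [hSd]; exact Finset.card_image_of_injOn hS
  have hcSJ : SJ.card = Js.card := by rw [hSJd]; exact Finset.card_image_of_injOn hSJ
  have hfil : ∀ t, (S.filter (t < ·)).card ≤ (SJ.filter (t < ·)).card := by
    intro t
    have h1 : S.filter (t < ·) = (Js.filter (fun k => t < sg c s p k)).image (sg c s p) := by
      rw [hSd, Finset.filter_image]
    have h2 : SJ.filter (t < ·) = (Js.filter (fun k => t < s k)).image s := by
      rw [hSJd, Finset.filter_image]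
    rw [h1, h2, Finset.card_image_of_injOn, Finset.card_image_of_injOn]
    · refine Finset.card_le_card fun k hk => ?_
      rw [Finset.mem_filter] at hk ⊢
      have := (facts hE hG hk.1).2.2.2.2.2.2.2.2
      exact ⟨hk.1, by omega⟩
    · exact hSJ.mono fun k hk => (Finset.mem_filter.mp hk).1
    · exact hS.mono fun k hk => (Finset.mem_filter.mp hk).1
  have hdiff : ∀ (X Y : Finset ℕ) (q : ℕ → Prop) [DecidablePred q],
      ((X \ Y).filter q).card + ((X ∩ Y).filter q).card = (X.filter q).card := by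
    intro X Y q _
    rw [← Finset.card_union_of_disjoint]
    · congr 1
      ext x
      simp only [Finset.mem_union, Finset.mem_filter, Finset.mem_sdiff, Finset.mem_inter]
      tauto
    · rw [Finset.disjoint_left]
      intro x hx hx'
      rw [Finset.mem_filter, Finset.mem_sdiff] at hx
      rw [Finset.mem_filter, Finset.mem_inter] at hx'
      exact hx.1.2 hx'.1.2
  obtain ⟨φ, h1, h2, h3⟩ := Pool.Agent.TH49.GT.match_le (S \ SJ).card (S \ SJ) (SJ \ S) rfl
    (by
      have h4 := hdiff S SJ (fun _ => True)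
      have h5 := hdiff SJ S (fun _ => True)
      rw [Finset.inter_comm SJ S] at h5
      simp only [Finset.filter_true] at h4 h5
      omega)
    (fun t => by
      have h4 := hdiff S SJ (t < ·)
      have h5 := hdiff SJ S (t < ·)
      rw [Finset.inter_comm SJ S] at h5
      have h6 := hfil t
      omega)
  refine ⟨SJ \ S, φ, ?_, ?_, ?_, h2, ?_⟩
  · intro r hr
    rw [Finset.mem_sdiff, hSJd, hSd, Finset.mem_image, Finset.mem_image] at hr
    obtain ⟨⟨k, hk, h4⟩, h5⟩ := hr
    exact ⟨⟨k, hk, h4.symm⟩, fun l hl h6 => h5 ⟨l, hl, h6.symm⟩⟩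
  · intro k hk
    by_cases h4 : s k ∈ S
    · left
      rw [hSd, Finset.mem_image] at h4
      obtain ⟨l, hl, h5⟩ := h4
      exact ⟨l, hl, h5.symm⟩
    · right
      rw [Finset.mem_sdiff, hSJd]
      exact ⟨Finset.mem_image_of_mem _ hk, h4⟩
  · intro r hr
    obtain ⟨h4, h5⟩ := h1 r hr
    have h6 : φ r ≠ r := by
      intro h6
      rw [h6] at h4
      exact (Finset.mem_sdiff.mp hr).2 (Finset.mem_sdiff.mp h4).1
    rw [Finset.mem_sdiff, hSJd, hSd, Finset.mem_image, Finset.mem_image] at h4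
    obtain ⟨⟨k, hk, h7⟩, h8⟩ := h4
    exact ⟨⟨k, hk, h7.symm⟩, fun l hl h9 => h8 ⟨l, hl, h9.symm⟩, by omega⟩
  · intro k hk
    by_cases h4 : sg c s p k ∈ SJ
    · left
      rw [hSJd, Finset.mem_image] at h4
      obtain ⟨l, hl, h5⟩ := h4
      exact ⟨l, hl, h5.symm⟩
    · right
      have h5 : sg c s p k ∈ S \ SJ := by
        rw [Finset.mem_sdiff]
        refine ⟨?_, h4⟩
        rw [hSd]
        exact Finset.mem_image_of_mem _ hk
      obtain ⟨u, hu, h6⟩ := h3 _ h5
      exact ⟨u, hu, h6⟩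

end

end SupAux

open SupAux in
theorem sup : SupStm := by
  intro m p Js M c s hm hE hG
  obtain ⟨R, φ, hR1, hR2, hR3, hR4, hR5⟩ := exists_phi hE hG
  have hMpos : 1 ≤ M := by
    have := hG.mono 0 m (by omega) le_rfl
    have := hG.last
    omega
  have hRM : ∀ r ∈ R, r ≤ M ∧ 1 ≤ r ∧ 1 ≤ φ r := by
    intro r hr
    obtain ⟨⟨k, hk, h1⟩, -⟩ := hR1 r hr
    obtain ⟨⟨l, hl, h2⟩, -, h3⟩ := hR3 r hr
    have h4 := facts hE hG hk
    have h5 := facts hE hG hl
    omega
  have hex : ∀ t, 1 ≤ t → ∃ a d, Q p Js M c s R φ t a d := by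
    intro t ht
    by_cases h1 : ∃ k ∈ Js, t = s k
    · obtain ⟨k, hk, h⟩ := h1
      exact ⟨_, _, Or.inl ⟨k, hk, h, rfl, rfl⟩⟩
    by_cases h2 : ∃ r ∈ R, t = φ r
    · obtain ⟨r, hr, h⟩ := h2
      have h3 := hRM r hr
      have h4 := hR3 r hr
      obtain ⟨a, h5, h6, h7⟩ := hole_par (c := c) (M := M) (h := φ r) h4.2.2 h3.1
      refine ⟨a, r, Or.inr (Or.inl ⟨r, hr, h, ?_, h6, rfl, ?_⟩)⟩
      · rw [h]; exact h5
      · rw [h]; exact h7
    · push Not at h1 h2
      obtain ⟨u, h3, h4, h5⟩ := base_par hG.c0 hG.c1 ht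
      exact ⟨u, t, Or.inr (Or.inr ⟨h1, h2, h3, h4, h5, rfl⟩)⟩
  choose par del hQ using hex
  obtain ⟨par', hpar'⟩ : ∃ f : ℕ → ℕ, ∀ t (h : 1 ≤ t), f t = par t h :=
    ⟨fun t => if h : 1 ≤ t then par t h else 0, fun t h => by simp only [dif_pos h]⟩
  obtain ⟨del', hdel'⟩ : ∃ f : ℕ → ℕ, ∀ t (h : 1 ≤ t), f t = del t h :=
    ⟨fun t => if h : 1 ≤ t then del t h else 0, fun t h => by simp only [dif_pos h]⟩
  have hQ' : ∀ t, 1 ≤ t → Q p Js M c s R φ t (par' t) (del' t) := by
    intro t ht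
    rw [hpar' t ht, hdel' t ht]
    exact hQ t ht
  clear hQ hpar' hdel' par del
  -- bounds
  have hbd : ∀ t, 1 ≤ t → t ≤ M → par' t ≤ M ∧ par' t ≠ t ∧ 1 ≤ del' t ∧ del' t ≤ M ∧
      Int.natAbs ((lab M c t : ℤ) - (lab M c (par' t) : ℤ)) + del' t = M + 1 := by
    intro t h1 h2
    rcases hQ' t h1 with ⟨k, hk, e1, e2, e3⟩ | ⟨r, hr, e1, e2, e3, e4, e5⟩ | ⟨e1, e2, e3, e4, e5, e6⟩
    · obtain ⟨f1, f2, f3, f4, f5, f6, f7, f8, f9⟩ := facts hE hG hk
      rw [e2, e3, e1]
      have g1 := lab_diff (c := c) (M := M) (x := s k) (y := s (p k)) f5 (by omega) f6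
      have g2 := rk_le' (c := c) (M := M) (x := s k) (y := s (p k)) f5 (by omega) f6
      refine ⟨by omega, by omega, f8, by omega, ?_⟩
      rw [g1]
      omega
    · have f1 := hRM r hr
      refine ⟨e3, by omega, by omega, by omega, ?_⟩
      rw [e5, e4]
      omega
    · have g1 := lab_diff (c := c) (M := M) (x := t) (y := par' t) h2 (by omega) e4.symm
      have g2 := rk_base e3 e4 e5
      refine ⟨by omega, by omega, by omega, by omega, ?_⟩
      rw [g1, e6]
      omega
  -- the indices are different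
  have hinj : ∀ t t', 1 ≤ t → 1 ≤ t' → del' t = del' t' → t = t' := by
    intro t t' h h' hd
    have h1 := hQ' t h
    have h2 := hQ' t' h'
    rw [hd] at h1
    rcases h1 with ⟨k, hk, e1, e2, e3⟩ | ⟨r, hr, e1, e2, e3, e4, e5⟩ | ⟨e1, e2, e3, e4, e5, e6⟩ <;>
    rcases h2 with ⟨l, hl, f1, f2, f3⟩ | ⟨q, hq, f1, f2, f3, f4, f5⟩ | ⟨f1, f2, f3, f4, f5, f6⟩
    · have g1 : k = l := hG.inj k hk l hl (by rw [← e3, ← f3])
      rw [e1, f1, g1]
    · exact absurd (by rw [← f4, ← e3]) ((hR1 q hq).2 k hk)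
    · have g1 : t' = sg c s p k := by rw [← f6, ← e3]
      rcases hR5 k hk with ⟨i, hi, g2⟩ | ⟨q, hq, g2⟩
      · exact absurd (by rw [g1, g2]) (f1 i hi)
      · exact absurd (by rw [g1, g2]) (f2 q hq)
    · exact absurd (by rw [← e4, ← f3]) ((hR1 r hr).2 l hl)
    · have g1 : r = q := by rw [← e4, ← f4]
      rw [e1, f1, g1]
    · obtain ⟨⟨k, hk, g1⟩, -⟩ := hR1 r hr
      exact absurd (by rw [← f6, e4, g1]) (f1 k hk)
    · have g1 : t = sg c s p l := by rw [← e6, ← f3]
      rcases hR5 l hl with ⟨i, hi, g2⟩ | ⟨q, hq, g2⟩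
      · exact absurd (by rw [g1, g2]) (e1 i hi)
      · exact absurd (by rw [g1, g2]) (e2 q hq)
    · obtain ⟨⟨k, hk, g1⟩, -⟩ := hR1 q hq
      exact absurd (by rw [← e6, f4, g1]) (e1 k hk)
    · rw [← e6, f6]
  obtain ⟨T', hT'⟩ : ∃ T' : SimpleGraph (Fin (M + 1)), ∀ a b, T'.Adj a b ↔
      (1 ≤ (a : ℕ) ∧ (b : ℕ) = par' a) ∨ (1 ≤ (b : ℕ) ∧ (a : ℕ) = par' b) := by
    refine ⟨SimpleGraph.fromRel (fun a b => 1 ≤ (a : ℕ) ∧ (b : ℕ) = par' a), fun a b => ?_⟩
    rw [SimpleGraph.fromRel_adj]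
    constructor
    · exact fun h => h.2
    · intro h
      refine ⟨?_, h⟩
      rintro rfl
      rcases h with h | h
      · exact (hbd a.1 h.1 (Nat.le_of_lt_succ a.2)).2.1 h.2.symm
      · exact (hbd a.1 h.1 (Nat.le_of_lt_succ a.2)).2.1 h.2.symm
  -- edges
  let E : Fin M → Sym2 (Fin (M + 1)) := fun t =>
    s(⟨t.1 + 1, by omega⟩, ⟨par' (t.1 + 1), Nat.lt_succ_of_le (hbd (t.1 + 1) (by omega) (by omega)).1⟩)
  have hE' : T'.edgeSet = Set.range E := by
    ext e
    induction e using Sym2.ind with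
    | _ u v =>
      rw [SimpleGraph.mem_edgeSet, hT']
      constructor
      · rintro (⟨h1, h2⟩ | ⟨h1, h2⟩)
        · refine ⟨⟨u - 1, by omega⟩, ?_⟩
          have h3 : (u : ℕ) - 1 + 1 = u := by omega
          refine Sym2.eq_iff.mpr (Or.inl ⟨Fin.ext h3, Fin.ext ?_⟩)
          simp only [h3]
          exact h2.symm
        · refine ⟨⟨v - 1, by omega⟩, ?_⟩
          have h3 : (v : ℕ) - 1 + 1 = v := by omega
          refine Sym2.eq_iff.mpr (Or.inr ⟨Fin.ext h3, Fin.ext ?_⟩)
          simp only [h3]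
          exact h2.symm
      · rintro ⟨t, ht⟩
        rcases Sym2.eq_iff.mp ht with ⟨h1, h2⟩ | ⟨h1, h2⟩
        · rw [← h1, ← h2]
          exact Or.inl ⟨Nat.le_add_left 1 _, rfl⟩
        · rw [← h1, ← h2]
          exact Or.inr ⟨Nat.le_add_left 1 _, rfl⟩
  have hEinj : Function.Injective E := by
    intro t t' h
    rcases Sym2.eq_iff.mp h with ⟨h1, h2⟩ | ⟨h1, h2⟩
    · have := Fin.mk.inj_iff.mp h1
      exact Fin.ext (by omega)
    · have h3 : (t : ℕ) + 1 = par' (t' + 1) := Fin.mk.inj_iff.mp h1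
      have h4 : par' (t + 1) = (t' : ℕ) + 1 := Fin.mk.inj_iff.mp h2
      have h5 := hbd (t + 1) (by omega) (by omega)
      have h6 := hbd (t' + 1) (by omega) (by omega)
      rw [h4] at h5
      rw [← h3] at h6
      have h7 : del' (t + 1) = del' (t' + 1) := by omega
      have := hinj _ _ (by omega) (by omega) h7
      exact Fin.ext (by omega)
  have hcard : T'.edgeSet.ncard = M := by
    rw [hE', ← Set.image_univ, Set.ncard_image_of_injective _ hEinj, Set.ncard_univ]
    simp
  -- connectedness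
  have hadj : ∀ (t : ℕ) (_ : 1 ≤ t) (ht : t < M + 1) (h' : par' t < M + 1),
      T'.Adj ⟨t, ht⟩ ⟨par' t, h'⟩ := by
    intro t h1 ht h'
    rw [hT']
    exact Or.inl ⟨h1, rfl⟩
  have hr1 : ∀ (n t : ℕ) (ht : t < M + 1), t ≤ n → (∀ r ∈ R, t ≠ φ r) →
      T'.Reachable ⟨t, ht⟩ ⟨0, Nat.succ_pos M⟩ := by
    intro n
    induction n with
    | zero =>
      intro t ht h1 h2
      have h3 : t = 0 := by omega
      subst h3
      exact SimpleGraph.Reachable.refl _
    | succ n ih =>
      intro t ht h1 h2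
      by_cases h3 : t = 0
      · subst h3
        exact SimpleGraph.Reachable.refl _
      · have ht' : 1 ≤ t := by omega
        have h4 := hbd t ht' (by omega)
        have h5 := hadj t ht' ht (by omega)
        refine h5.reachable.trans ?_
        rcases hQ' t ht' with ⟨k, hk, e1, e2, e3⟩ | ⟨r, hr, e1, e2, e3, e4, e5⟩ |
          ⟨e1, e2, e3, e4, e5, e6⟩
        · obtain ⟨f1, f2, f3, f4, f5, f6, f7, f8, f9⟩ := facts hE hG hk
          refine ih (par' t) (by omega) (by omega) ?_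
          intro r hr g1
          obtain ⟨⟨l, hl, g2⟩, g3, g4⟩ := hR3 r hr
          rcases hG.hole l hl with ⟨i, hi, g5⟩ | ⟨g5, -⟩
          · exact g3 i hi (by rw [g2, g5])
          · exact g5 (p k) (by omega) (by rw [← g2, ← g1, e2])
        · exact absurd e1 (h2 r hr)
        · refine ih (par' t) (by omega) (by omega) ?_
          intro r hr g1
          obtain ⟨⟨l, hl, g2⟩, g3, g4⟩ := hR3 r hr
          rcases hG.hole l hl with ⟨i, hi, g5⟩ | ⟨-, g5⟩
          · exact g3 i hi (by rw [g2, g5])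
          · rw [← g2, ← g1] at g5
            rcases Nat.lt_or_ge (par' t + 1) t with g6 | g6
            · have g7 := e5 (par' t + 1) (by omega) g6
              rw [g5] at g7
              exact e4 g7
            · have g7 : par' t + 1 = t := by omega
              rw [g7] at g5
              exact e4 g5.symm
  have hr2 : ∀ (n t : ℕ) (ht : t < M + 1), M - t ≤ n →
      T'.Reachable ⟨t, ht⟩ ⟨0, Nat.succ_pos M⟩ := by
    intro n
    induction n with
    | zero =>
      intro t ht h1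
      by_cases h : ∃ r ∈ R, t = φ r
      · obtain ⟨r, hr, h⟩ := h
        have f1 := hRM r hr
        have f2 := (hR3 r hr).2.2
        omega
      · push Not at h
        exact hr1 _ t ht le_rfl h
    | succ n ih =>
      intro t ht h1
      by_cases h : ∃ r ∈ R, t = φ r
      · obtain ⟨r, hr, h⟩ := h
        have f1 := hRM r hr
        have ht' : 1 ≤ t := by omega
        have h4 := hbd t ht' (by omega)
        have h5 := hadj t ht' ht (by omega)
        refine h5.reachable.trans (ih (par' t) (by omega) ?_)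
        have h6 : t < par' t := by
          rcases hQ' t ht' with ⟨k, hk, e1, e2, e3⟩ | ⟨r, hr, e1, e2, e3, e4, e5⟩ |
            ⟨e1, e2, e3, e4, e5, e6⟩
          · exact absurd (by rw [← h, e1]) ((hR3 r hr).2.1 k hk)
          · exact e2
          · exact absurd h (e2 r hr)
        omega
      · push Not at h
        exact hr1 _ t ht le_rfl h
  have hconn : T'.Connected := by
    refine SimpleGraph.Connected.mk fun u v => ?_
    exact (hr2 _ u.1 u.2 le_rfl).trans (hr2 _ v.1 v.2 le_rfl).symm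
  refine ⟨T', ?_, hcard, ?_, ?_⟩
  · rw [SimpleGraph.isTree_iff_connected_and_card]
    refine ⟨hconn, ?_⟩
    have : Nat.card T'.edgeSet = M := hcard
    rw [this]
    simp
  · refine ⟨fun v => lab M c v, ?_, ?_, ?_⟩
    · intro u v h
      exact Fin.ext (lab_inj (Nat.le_of_lt_succ u.2) (Nat.le_of_lt_succ v.2) h)
    · intro v
      rw [hcard]
      exact lab_le (Nat.le_of_lt_succ v.2)
    · rw [hcard]
      ext d
      simp only [Set.mem_ofPred_eq, Set.mem_Icc]
      constructor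
      · rintro ⟨u, v, h, rfl⟩
        rcases (hT' u v).mp h with ⟨h1, h2⟩ | ⟨h1, h2⟩
        · have h3 := hbd u h1 (Nat.le_of_lt_succ u.2)
          rw [← h2] at h3
          omega
        · have h3 := hbd v h1 (Nat.le_of_lt_succ v.2)
          rw [← h2] at h3
          omega
      · rintro ⟨h1, h2⟩
        let D : Fin M → Fin M := fun t => ⟨del' (t.1 + 1) - 1, by
          have := hbd (t.1 + 1) (by omega) (by omega)
          omega⟩
        have hD : Function.Injective D := by
          intro t t' h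
          have h3 := Fin.mk.inj_iff.mp h
          have h4 := hbd (t.1 + 1) (by omega) (by omega)
          have h5 := hbd (t'.1 + 1) (by omega) (by omega)
          have h6 := hinj (t.1 + 1) (t'.1 + 1) (by omega) (by omega) (by omega)
          exact Fin.ext (by omega)
        obtain ⟨t, ht⟩ := (Finite.surjective_of_injective hD) ⟨M - d, by omega⟩
        have h3 : del' (t.1 + 1) - 1 = M - d := Fin.mk.inj_iff.mp ht
        have h4 := hbd (t.1 + 1) (by omega) (by omega)
        refine ⟨⟨t.1 + 1, by omega⟩, ⟨par' (t.1 + 1), Nat.lt_succ_of_le h4.1⟩,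
          hadj (t.1 + 1) (by omega) _ _, ?_⟩
        simp only
        omega
  · intro i h1 h2 a b ha hb
    have h3 := hE.lt i h1 h2
    have h4 := hG.mono (p i) i h3 h2
    rw [hT']
    refine Or.inl ⟨by omega, ?_⟩
    rw [ha, hb]
    rcases hQ' (s i) (by omega) with ⟨k, hk, e1, e2, e3⟩ | ⟨r, hr, e1, e2, e3, e4, e5⟩ |
      ⟨e1, e2, e3, e4, e5, e6⟩
    · have f1 := facts hE hG hk
      have f2 : i = k := s_ne hG h2 f1.2.1 e1
      rw [e2, f2]
    · obtain ⟨⟨l, hl, g2⟩, g3, g4⟩ := hR3 r hr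
      rcases hG.hole l hl with ⟨j, hj, g5⟩ | ⟨g5, -⟩
      · exact absurd (by rw [g2, g5]) (g3 j hj)
      · exact absurd (by rw [e1, g2]) (g5 i h2)
    · have f1 : i ∉ Js := fun h => e1 i h rfl
      refine base_unique h4 (hG.cls i h1 h2).symm (fun v h5 h6 => hG.reg i h1 h2 f1 v h5 h6)
        e3 e4 e5

end Pool.Agent.TH56.CT
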