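import Pool.Agent.TH56.CT.Def

/-!
# Part I: the steps exist
-/

set_option autoImplicit false

namespace Pool.Agent.TH56.CT

open Finset

theorem cn_succ (c : ℕ → Bool) (b : Bool) (t : ℕ) :
    cn c b (t + 1) = cn c b t + if c t = b then 1 else 0 := by
  unfold cn
  rw [range_add_one, filter_insert]
  split_ifs with h
  · rw [card_insert_of_notMem (by simp)]
  · rfl

theorem cn_zero (c : ℕ → Bool) (b : Bool) : cn c b 0 = 0 := by
  unfold cn
  simp

theorem cn_congr {c c' : ℕ → Bool} {t : ℕ} (h : ∀ u < t, c u = c' u) (b : Bool) :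
    cn c b t = cn c' b t := by
  unfold cn
  congr 1
  apply filter_congr
  intro u hu
  rw [mem_range] at hu
  rw [h u hu]

theorem cn_mono (c : ℕ → Bool) (b : Bool) {t t' : ℕ} (h : t ≤ t') : cn c b t ≤ cn c b t' := by
  unfold cn
  exact card_le_card (filter_subset_filter _ (range_subset_range.2 h))

theorem cn_add (c : ℕ → Bool) (b : Bool) (t : ℕ) : cn c b t + cn c (!b) t = t := by
  induction t with
  | zero => simp [cn_zero]
  | succ t ih =>
    rw [cn_succ, cn_succ]
    cases hb : b <;> cases hc : c t <;> simp [hb] at ih ⊢ <;> omega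

theorem cn_lt {c : ℕ → Bool} {b : Bool} {u t : ℕ} (h : u < t) (hc : c u = b) :
    cn c b u + 1 ≤ cn c b t := by
  have h1 := cn_succ c b u
  rw [if_pos hc] at h1
  rw [← h1]
  exact cn_mono c b h

theorem cn_const {c : ℕ → Bool} {b : Bool} {N : ℕ} (x : ℕ)
    (h : ∀ u, N ≤ u → u < N + x → c u = b) : cn c b (N + x) = cn c b N + x := by
  induction x with
  | zero => rfl
  | succ x ih =>
    rw [← Nat.add_assoc, cn_succ, ih (fun u h1 h2 => h u h1 (by omega)),
      if_pos (h (N + x) (by omega) (by omega))]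
    omega

theorem cn_const' {c : ℕ → Bool} {b : Bool} {N : ℕ} (x : ℕ)
    (h : ∀ u, N ≤ u → u < N + x → c u = b) : cn c (!b) (N + x) = cn c (!b) N := by
  have h1 := cn_const x h
  have h2 := cn_add c b (N + x)
  have h3 := cn_add c b N
  omega

section st

variable (m : ℕ) (p : ℕ → ℕ) (Js : Finset ℕ) (κ : ℕ → Bool)

/-- the number of jumps of class `b` before `k` -/
def R (b : Bool) (k : ℕ) : ℕ := (Js.filter (fun l => l < k ∧ κ l = b)).card

/-- the smallest planned number of a jump -/
def base (k : ℕ) : ℕ := cn κ (κ k) k + (2 * Js.card - 1) * (R Js κ (κ k) k + 1)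

/-- the special step of a jump -/
def sig (c : ℕ → Bool) (s g : ℕ → ℕ) (k : ℕ) : ℕ := g k + cn c (κ (p k)) (s (p k)) + 1

/-- the states: the vertices `≤ i` are placed at steps `< N`, the numbers of the jumps with parents
`< q` are planned -/
structure St (i q N : ℕ) (c : ℕ → Bool) (s g : ℕ → ℕ) : Prop where
  hN : N = s i + 1
  c0 : c 0 = false
  c1 : 2 ≤ N → c 1 = true
  s0 : s 0 = 0
  mono : ∀ j l, j < l → l ≤ i → s j < s l
  cls : ∀ j ≤ i, c (s j) = κ j
  reg : ∀ j, 1 ≤ j → j ≤ i → j ∉ Js → ∀ t, s (p j) < t → t < s j → c t = κ j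
  plan : ∀ k ∈ Js, k ≤ i → cn c (κ k) (s k) = g k
  tgt : ∀ k ∈ Js, p k < q → base Js κ k ≤ g k ∧ g k ≤ base Js κ k + (Js.card - 1)
  inj : ∀ k ∈ Js, ∀ l ∈ Js, p k < q → p l < q → sig p κ c s g k = sig p κ c s g l → k = l
  hole : ∀ k ∈ Js, p k < q → sig p κ c s g k < N → (∃ l ∈ Js, l ≤ i ∧ sig p κ c s g k = s l) ∨
    ((∀ j ≤ i, s j ≠ sig p κ c s g k) ∧ c (sig p κ c s g k + 1) = c (sig p κ c s g k) ∧
      sig p κ c s g k + 1 < N)
  bd : ∀ b, cn c b N ≤ cn κ b (i + 1) + (2 * Js.card - 1) * R Js κ b (i + 1) + (Js.card - 1) +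
    (Js.filter (fun k => p k < q ∧ sig p κ c s g k < N ∧ c (sig p κ c s g k) = b)).card

variable {m p Js κ}

theorem R_succ_of_notMem {b : Bool} {k : ℕ} (h : k ∉ Js ∨ κ k ≠ b) : R Js κ b (k + 1) = R Js κ b k := by
  unfold R
  congr 1
  apply filter_congr
  intro l hl
  constructor
  · rintro ⟨h1, h2⟩
    refine ⟨?_, h2⟩
    rcases Nat.lt_succ_iff_lt_or_eq.1 h1 with h3 | h3
    · exact h3
    · subst h3
      rcases h with h | h
      · exact absurd hl h
      · exact absurd h2 h
  · rintro ⟨h1, h2⟩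
    exact ⟨by omega, h2⟩

theorem R_succ_of_mem {k : ℕ} (h : k ∈ Js) : R Js κ (κ k) (k + 1) = R Js κ (κ k) k + 1 := by
  unfold R
  have h1 : Js.filter (fun l => l < k + 1 ∧ κ l = κ k) =
      insert k (Js.filter (fun l => l < k ∧ κ l = κ k)) := by
    ext l
    rw [mem_insert, mem_filter, mem_filter]
    constructor
    · rintro ⟨h1, h2, h3⟩
      rcases Nat.lt_succ_iff_lt_or_eq.1 h2 with h4 | h4
      · exact Or.inr ⟨h1, h4, h3⟩
      · exact Or.inl h4
    · rintro (h1 | ⟨h1, h2, h3⟩)
      · subst h1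
        exact ⟨h, by omega, rfl⟩
      · exact ⟨h1, by omega, h3⟩
  rw [h1, card_insert_of_notMem (by simp)]

theorem R_mono {b : Bool} {k l : ℕ} (h : k ≤ l) : R Js κ b k ≤ R Js κ b l := by
  unfold R
  apply card_le_card
  intro x hx
  rw [mem_filter] at hx ⊢
  exact ⟨hx.1, by omega, hx.2.2⟩

/-- the number of steps of class `κ k` is at most the planned number of the jump `k` -/
theorem St.room {i q N : ℕ} {c : ℕ → Bool} {s g : ℕ → ℕ} (h : St p Js κ i q N c s g)
    {k : ℕ} (hk : k ∈ Js) (hik : i < k) : cn c (κ k) N ≤ base Js κ k := by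
  have h1 := h.bd (κ k)
  have h2 : (Js.filter (fun l => p l < q ∧ sig p κ c s g l < N ∧ c (sig p κ c s g l) = κ k)).card ≤
      Js.card := card_filter_le _ _
  have h3 : cn κ (κ k) (i + 1) ≤ cn κ (κ k) k := cn_mono _ _ hik
  have h4 : R Js κ (κ k) (i + 1) ≤ R Js κ (κ k) k := R_mono hik
  have h5 : 1 ≤ Js.card := card_pos.2 ⟨k, hk⟩
  unfold base
  have h6 : (2 * Js.card - 1) * R Js κ (κ k) (i + 1) ≤ (2 * Js.card - 1) * R Js κ (κ k) k :=
    Nat.mul_le_mul_left _ h4
  rw [Nat.mul_add, Nat.mul_one]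
  omega

theorem St.slt {i q N : ℕ} {c : ℕ → Bool} {s g : ℕ → ℕ} (h : St p Js κ i q N c s g) {j : ℕ}
    (hj : j ≤ i) : s j < N := by
  have h1 := h.hN
  rcases hj.lt_or_eq with h2 | h2
  · have := h.mono j i h2 le_rfl
    omega
  · subst h2
    omega

theorem St.ext (hE : Enum m p Js) (hκ0 : κ 0 = false)
    (hκ : ∀ i, 1 ≤ i → i ≤ m → κ i = !κ (p i)) {i N : ℕ} {c : ℕ → Bool} {s g : ℕ → ℕ}
    (h : St p Js κ i (i + 1) N c s g) (him : i + 1 ≤ m) (L : ℕ)
    (hL1 : i + 1 ∉ Js → (∀ x < L, ∃ k ∈ Js, p k < i + 1 ∧ sig p κ c s g k = N + x) ∧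
      ∀ k ∈ Js, p k < i + 1 → sig p κ c s g k ≠ N + L)
    (hL2 : i + 1 ∈ Js → cn c (κ (i + 1)) N + L = g (i + 1)) :
    St p Js κ (i + 1) (i + 1) (N + L + 1) (fun t => if t < N then c t else κ (i + 1))
      (Function.update s (i + 1) (N + L)) g := by
  obtain ⟨c', hc'⟩ : ∃ c' : ℕ → Bool, c' = (fun t => if t < N then c t else κ (i + 1)) := ⟨_, rfl⟩
  obtain ⟨s', hs'⟩ : ∃ s' : ℕ → ℕ, s' = Function.update s (i + 1) (N + L) := ⟨_, rfl⟩
  rw [← hc', ← hs']
  have c1 : ∀ t, t < N → c' t = c t := fun t ht => by rw [hc']; simp [ht]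
  have c2 : ∀ t, N ≤ t → c' t = κ (i + 1) := fun t ht => by
    rw [hc']; simp [Nat.not_lt.2 ht]
  have s1 : ∀ j, j ≤ i → s' j = s j := fun j hj => by
    rw [hs']
    exact Function.update_of_ne (by omega) _ _
  have s2 : s' (i + 1) = N + L := by rw [hs']; exact Function.update_self _ _ _
  have hcn : ∀ b t, t ≤ N → cn c' b t = cn c b t := fun b t ht =>
    cn_congr (fun u hu => c1 u (by omega)) b
  have hcn2 : ∀ x, cn c' (κ (i + 1)) (N + x) = cn c (κ (i + 1)) N + x := fun x => by
    rw [cn_const x (fun u h1 _ => c2 u h1), hcn _ N le_rfl]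
  have hcn3 : ∀ x, cn c' (!κ (i + 1)) (N + x) = cn c (!κ (i + 1)) N := fun x => by
    rw [cn_const' x (fun u h1 _ => c2 u h1), hcn _ N le_rfl]
  have hN1 : 1 ≤ N := by have := h.hN; omega
  have hsig : ∀ k, p k < i + 1 → sig p κ c' s' g k = sig p κ c s g k := by
    intro k hk
    unfold sig
    rw [s1 _ (by omega), hcn _ _ (h.slt (by omega)).le]
  have hpi : p (i + 1) < i + 1 := hE.lt (i + 1) (by omega) him
  refine ⟨by rw [s2], ?_, ?_, ?_, ?_, ?_, ?_, ?_, h.tgt, ?_, ?_, ?_⟩
  · rw [c1 0 hN1, h.c0]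
  · intro _
    rcases Nat.lt_or_ge 1 N with h2 | h2
    · rw [c1 1 h2, h.c1 h2]
    · have hi0 : i = 0 := by
        by_contra hne
        have h3 := h.mono 0 i (by omega) le_rfl
        have h4 := h.hN
        omega
      rw [c2 1 h2]
      subst hi0
      rw [hκ 1 le_rfl him]
      have : p 1 = 0 := by
        have : p (0 + 1) < 0 + 1 := hpi
        simpa using this
      rw [this, hκ0]
      rfl
  · rw [s1 0 (by omega), h.s0]
  · intro j l hjl hl
    rcases hl.lt_or_eq with h2 | h2
    · rw [s1 j (by omega), s1 l (by omega)]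
      exact h.mono j l hjl (by omega)
    · rw [h2, s2, s1 j (by omega)]
      have := h.slt (j := j) (by omega)
      omega
  · intro j hj
    rcases hj.lt_or_eq with h2 | h2
    · rw [s1 j (by omega), c1 _ (h.slt (by omega)), h.cls j (by omega)]
    · rw [h2, s2, c2 _ (by omega)]
  · intro j hj1 hj hjJ t ht1 ht2
    rcases hj.lt_or_eq with h2 | h2
    · have hpj := hE.lt j hj1 (by omega)
      rw [s1 _ (by omega)] at ht1
      rw [s1 _ (by omega)] at ht2
      have h3 := h.slt (j := j) (by omega)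
      rw [c1 _ (by omega)]
      exact h.reg j hj1 (by omega) hjJ t ht1 ht2
    · subst h2
      rw [s1 _ (by omega)] at ht1
      rcases Nat.lt_or_ge t N with h3 | h3
      · rw [c1 t h3]
        rcases hE.reg (i + 1) (by omega) him hjJ with h4 | ⟨h4, h5, h6⟩
        · have h7 : p (i + 1) = i := by omega
          rw [h7] at ht1
          have := h.hN
          omega
        · rw [Nat.add_sub_cancel] at h5 h6
          rw [h6] at ht1
          have h8 : κ (i + 1) = κ i := by
            rw [hκ (i + 1) (by omega) him, hκ i (by omega) (by omega), h6]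
          rw [h8]
          rcases Nat.lt_or_ge t (s i) with h9 | h9
          · exact h.reg i (by omega) le_rfl h5 t ht1 h9
          · have h10 : t = s i := by have := h.hN; omega
            rw [h10, h.cls i le_rfl]
      · exact c2 t h3
  · intro k hk hki
    rcases hki.lt_or_eq with h2 | h2
    · rw [s1 k (by omega), hcn _ _ (h.slt (by omega)).le]
      exact h.plan k hk (by omega)
    · subst h2
      rw [s2, hcn2, hL2 hk]
  · intro k hk l hl hpk hpl hkl
    rw [hsig k hpk, hsig l hpl] at hkl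
    exact h.inj k hk l hl hpk hpl hkl
  · intro k hk hpk hlt
    rw [hsig k hpk] at hlt ⊢
    rcases Nat.lt_or_ge (sig p κ c s g k) N with h3 | h3
    · rcases h.hole k hk hpk h3 with ⟨l, h4, h5, h6⟩ | ⟨h4, h5, h6⟩
      · exact Or.inl ⟨l, h4, by omega, by rw [s1 l h5, h6]⟩
      · refine Or.inr ⟨?_, ?_, by omega⟩
        · intro j hj
          rcases hj.lt_or_eq with h7 | h7
          · rw [s1 j (by omega)]
            exact h4 j (by omega)
          · rw [h7, s2]
            omega
        · rw [c1 _ h6, c1 _ (by omega), h5]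
    · rcases Nat.lt_or_ge (sig p κ c s g k) (N + L) with h4 | h4
      · refine Or.inr ⟨?_, ?_, by omega⟩
        · intro j hj
          rcases hj.lt_or_eq with h7 | h7
          · rw [s1 j (by omega)]
            have := h.slt (j := j) (by omega)
            omega
          · rw [h7, s2]
            omega
        · rw [c2 _ h3, c2 _ (by omega)]
      · by_cases hJ : i + 1 ∈ Js
        · exact Or.inl ⟨i + 1, hJ, le_rfl, by rw [s2]; omega⟩
        · exact absurd (by omega) ((hL1 hJ).2 k hk hpk)
  · intro b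
    have hsub : (Js.filter (fun k => p k < i + 1 ∧ sig p κ c s g k < N ∧
        c (sig p κ c s g k) = b)) ⊆ (Js.filter (fun k => p k < i + 1 ∧
        sig p κ c' s' g k < N + L + 1 ∧ c' (sig p κ c' s' g k) = b)) := by
      intro k hk
      rw [mem_filter] at hk ⊢
      obtain ⟨h1, h2, h3, h4⟩ := hk
      exact ⟨h1, h2, by rw [hsig k h2]; omega, by rw [hsig k h2, c1 _ h3, h4]⟩
    have hcard := card_le_card hsub
    have hbd := h.bd b
    have hcn4 : cn κ b (i + 1 + 1) = cn κ b (i + 1) + if κ (i + 1) = b then 1 else 0 :=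
      cn_succ κ b (i + 1)
    by_cases hb : κ (i + 1) = b
    · rw [if_pos hb] at hcn4
      have h1 : cn c' b (N + L + 1) = cn c b N + L + 1 := by
        rw [← hb, Nat.add_assoc, hcn2]
        rfl
      rw [h1, hcn4]
      by_cases hJ : i + 1 ∈ Js
      · have h2 := hL2 hJ
        have h3 := (h.tgt (i + 1) hJ hpi).2
        have h4 := R_succ_of_mem (κ := κ) hJ
        rw [hb] at h2 h4
        rw [h4]
        unfold base at h3
        rw [hb] at h3
        omega
      · rw [R_succ_of_notMem (Or.inl hJ)]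
        -- the `L` holes are counted
        obtain ⟨h5, h6⟩ := hL1 hJ
        choose! f hf using h5
        have hinj : Set.InjOn f (range L : Set ℕ) := by
          intro x hx y hy hxy
          rw [mem_coe, mem_range] at hx hy
          have h7 := (hf x hx).2.2
          have h8 := (hf y hy).2.2
          rw [hxy, h8] at h7
          omega
        have hdis : Disjoint (Js.filter (fun k => p k < i + 1 ∧ sig p κ c s g k < N ∧
            c (sig p κ c s g k) = b)) ((range L).image f) := by
          rw [disjoint_left]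
          intro k hk hk2
          rw [mem_filter] at hk
          rw [mem_image] at hk2
          obtain ⟨x, hx, rfl⟩ := hk2
          rw [mem_range] at hx
          have := (hf x hx).2.2
          omega
        have hsub2 : (Js.filter (fun k => p k < i + 1 ∧ sig p κ c s g k < N ∧
            c (sig p κ c s g k) = b)) ∪ ((range L).image f) ⊆ (Js.filter (fun k => p k < i + 1 ∧
            sig p κ c' s' g k < N + L + 1 ∧ c' (sig p κ c' s' g k) = b)) := by
          apply union_subset hsub
          intro k hk2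
          rw [mem_image] at hk2
          obtain ⟨x, hx, rfl⟩ := hk2
          rw [mem_range] at hx
          obtain ⟨h7, h8, h9⟩ := hf x hx
          rw [mem_filter]
          exact ⟨h7, h8, by rw [hsig _ h8, h9]; omega, by rw [hsig _ h8, h9, c2 _ (by omega), hb]⟩
        have h7 := card_le_card hsub2
        rw [card_union_of_disjoint hdis, card_image_of_injOn hinj, card_range] at h7
        omega
    · rw [if_neg hb, Nat.add_zero] at hcn4
      have hb' : b = !κ (i + 1) := by
        cases hh : κ (i + 1) <;> cases b <;> simp_all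
      have h1 : cn c' b (N + L + 1) = cn c b N := by
        rw [hb', Nat.add_assoc, hcn3]
      rw [h1, hcn4, R_succ_of_notMem (Or.inr hb)]
      omega

theorem greedy (n : ℕ) (β : ℕ → ℕ) (F : Finset ℕ) : ∀ K : Finset ℕ, F.card + K.card ≤ n →
    ∃ δ : ℕ → ℕ, (∀ k ∈ K, δ k < n ∧ β k + δ k ∉ F) ∧
      ∀ k ∈ K, ∀ l ∈ K, β k + δ k = β l + δ l → k = l := by
  intro K
  induction K using Finset.induction_on with
  | empty => exact fun _ => ⟨fun _ => 0, by simp, by simp⟩
  | insert a K ha ih =>
    intro hn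
    rw [card_insert_of_notMem ha] at hn
    obtain ⟨δ, h1, h2⟩ := ih (by omega)
    have h3 : ∃ d < n, β a + d ∉ F ∪ K.image (fun k => β k + δ k) := by
      by_contra hno
      push Not at hno
      have h4 : (range n).image (fun d => β a + d) ⊆ F ∪ K.image (fun k => β k + δ k) := by
        intro x hx
        rw [mem_image] at hx
        obtain ⟨d, hd, rfl⟩ := hx
        rw [mem_range] at hd
        exact hno d hd
      have h5 := card_le_card h4
      rw [card_image_of_injective _ (add_right_injective (β a)), card_range] at h5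
      have h6 := card_union_le F (K.image (fun k => β k + δ k))
      have h7 := card_image_le (s := K) (f := fun k => β k + δ k)
      omega
    obtain ⟨d, hd, hda⟩ := h3
    rw [mem_union, not_or] at hda
    have hne : ∀ k ∈ K, k ≠ a := fun k hk hka => ha (hka ▸ hk)
    refine ⟨Function.update δ a d, ?_, ?_⟩
    · intro k hk
      rw [mem_insert] at hk
      rcases hk with rfl | hk
      · rw [Function.update_self]
        exact ⟨hd, hda.1⟩
      · rw [Function.update_of_ne (hne k hk)]
        exact h1 k hk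
    · intro k hk l hl hkl
      rw [mem_insert] at hk hl
      rcases hk with rfl | hk <;> rcases hl with rfl | hl
      · rfl
      · rw [Function.update_self, Function.update_of_ne (hne l hl)] at hkl
        exact absurd (mem_image.2 ⟨l, hl, hkl.symm⟩) hda.2
      · rw [Function.update_self, Function.update_of_ne (hne k hk)] at hkl
        exact absurd (mem_image.2 ⟨k, hk, hkl⟩) hda.2
      · rw [Function.update_of_ne (hne l hl), Function.update_of_ne (hne k hk)] at hkl
        exact h2 k hk l hl hkl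

theorem St.plan_next (hE : Enum m p Js)
    (hκ : ∀ i, 1 ≤ i → i ≤ m → κ i = !κ (p i)) {i N : ℕ} {c : ℕ → Bool} {s g : ℕ → ℕ}
    (h : St p Js κ i i N c s g) : ∃ g', St p Js κ i (i + 1) N c s g' := by
  have hcard : ((Js.filter (fun k => p k < i)).image (sig p κ c s g)).card +
      (Js.filter (fun k => p k = i)).card ≤ Js.card := by
    have h1 := card_image_le (s := Js.filter (fun k => p k < i)) (f := sig p κ c s g)
    have h2 : Disjoint (Js.filter (fun k => p k < i)) (Js.filter (fun k => p k = i)) := by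
      rw [disjoint_left]
      intro k hk hk2
      rw [mem_filter] at hk hk2
      omega
    have h3 := card_le_card (union_subset (filter_subset (fun k => p k < i) Js)
      (filter_subset (fun k => p k = i) Js))
    rw [card_union_of_disjoint h2] at h3
    omega
  obtain ⟨δ, h1, h2⟩ := greedy Js.card (fun k => base Js κ k + cn c (κ i) (s i) + 1)
    ((Js.filter (fun k => p k < i)).image (sig p κ c s g)) (Js.filter (fun k => p k = i)) hcard
  obtain ⟨g', hg'⟩ : ∃ g' : ℕ → ℕ, g' = fun k => if p k = i then base Js κ k + δ k else g k :=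
    ⟨_, rfl⟩
  have e1 : ∀ k, p k = i → g' k = base Js κ k + δ k := fun k hk => by rw [hg']; simp [hk]
  have e2 : ∀ k, p k ≠ i → g' k = g k := fun k hk => by rw [hg']; simp [hk]
  have f1 : ∀ k, p k = i → sig p κ c s g' k = base Js κ k + cn c (κ i) (s i) + 1 + δ k := by
    intro k hk
    unfold sig
    rw [e1 k hk, hk]
    omega
  have f2 : ∀ k, p k < i → sig p κ c s g' k = sig p κ c s g k := by
    intro k hk
    unfold sig
    rw [e2 k (by omega)]
  have f3 : ∀ k ∈ Js, p k = i → N ≤ sig p κ c s g' k := by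
    intro k hk hki
    have hk2 := hE.sub k hk
    have hlt := hE.lt k hk2.1 hk2.2
    have h3 := h.room hk (show i < k by omega)
    have h4 := cn_add c (κ k) (s i)
    have h5 : (!κ k) = κ i := by rw [hκ k hk2.1 hk2.2, hki]; simp
    rw [h5] at h4
    have h6 : cn c (κ k) (s i) ≤ cn c (κ k) N := cn_mono _ _ (h.slt le_rfl).le
    rw [f1 k hki]
    have := h.hN
    omega
  refine ⟨g', h.hN, h.c0, h.c1, h.s0, h.mono, h.cls, h.reg, ?_, ?_, ?_, ?_, ?_⟩
  · intro k hk hki
    have hk2 := hE.sub k hk
    have hlt := hE.lt k hk2.1 hk2.2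
    rw [e2 k (by omega)]
    exact h.plan k hk hki
  · intro k hk hpk
    rcases Nat.lt_succ_iff_lt_or_eq.1 hpk with h3 | h3
    · rw [e2 k (by omega)]
      exact h.tgt k hk h3
    · have h4 := (h1 k (mem_filter.2 ⟨hk, h3⟩)).1
      rw [e1 k h3]
      omega
  · intro k hk l hl hpk hpl hkl
    rcases Nat.lt_succ_iff_lt_or_eq.1 hpk with h3 | h3 <;>
    rcases Nat.lt_succ_iff_lt_or_eq.1 hpl with h4 | h4
    · rw [f2 k h3, f2 l h4] at hkl
      exact h.inj k hk l hl h3 h4 hkl
    · rw [f2 k h3, f1 l h4] at hkl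
      exact absurd (mem_image.2 ⟨k, mem_filter.2 ⟨hk, h3⟩, hkl⟩)
        (h1 l (mem_filter.2 ⟨hl, h4⟩)).2
    · rw [f1 k h3, f2 l h4] at hkl
      exact absurd (mem_image.2 ⟨l, mem_filter.2 ⟨hl, h4⟩, hkl.symm⟩)
        (h1 k (mem_filter.2 ⟨hk, h3⟩)).2
    · rw [f1 k h3, f1 l h4] at hkl
      exact h2 k (mem_filter.2 ⟨hk, h3⟩) l (mem_filter.2 ⟨hl, h4⟩) hkl
  · intro k hk hpk hlt
    rcases Nat.lt_succ_iff_lt_or_eq.1 hpk with h3 | h3
    · rw [f2 k h3] at hlt ⊢
      exact h.hole k hk h3 hlt
    · have := f3 k hk h3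
      omega
  · intro b
    have h3 : (Js.filter (fun k => p k < i + 1 ∧ sig p κ c s g' k < N ∧
        c (sig p κ c s g' k) = b)) = (Js.filter (fun k => p k < i ∧ sig p κ c s g k < N ∧
        c (sig p κ c s g k) = b)) := by
      apply filter_congr
      intro k hk
      constructor
      · rintro ⟨h4, h5, h6⟩
        have h7 : p k < i := by
          by_contra h8
          have := f3 k hk (by omega)
          omega
        rw [f2 k h7] at h5 h6
        exact ⟨h7, h5, h6⟩
      · rintro ⟨h4, h5, h6⟩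
        rw [f2 k h4]
        exact ⟨by omega, h5, h6⟩
    rw [h3]
    exact h.bd b

theorem St.all (hE : Enum m p Js) (hκ0 : κ 0 = false)
    (hκ : ∀ i, 1 ≤ i → i ≤ m → κ i = !κ (p i)) : ∀ i ≤ m,
    ∃ (N : ℕ) (c : ℕ → Bool) (s g : ℕ → ℕ), St p Js κ i (i + 1) N c s g := by
  intro i
  induction i with
  | zero =>
    intro _
    have h : St p Js κ 0 0 1 (fun _ => false) (fun _ => 0) (fun _ => 0) := by
      refine ⟨rfl, rfl, fun h => by omega, rfl, fun j l h1 h2 => by omega, ?_,
        fun j h1 h2 => by omega, ?_, fun k _ hk => by omega, fun k _ l _ hk => by omega,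
        fun k _ hk => by omega, ?_⟩
      · intro j hj
        have : j = 0 := by omega
        rw [this, hκ0]
      · intro k hk hk0
        have := (hE.sub k hk).1
        omega
      · intro b
        have h1 : cn (fun _ => false) b 1 = cn κ b (0 + 1) :=
          cn_congr (fun u hu => by rw [show u = 0 by omega, hκ0]) b
        rw [h1]
        omega
    obtain ⟨g', hg'⟩ := h.plan_next hE hκ
    exact ⟨1, _, _, g', hg'⟩
  | succ i ih =>
    intro him
    obtain ⟨N, c, s, g, h⟩ := ih (by omega)
    obtain ⟨L, hL1, hL2⟩ : ∃ L : ℕ,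
        (i + 1 ∉ Js → (∀ x < L, ∃ k ∈ Js, p k < i + 1 ∧ sig p κ c s g k = N + x) ∧
          ∀ k ∈ Js, p k < i + 1 → sig p κ c s g k ≠ N + L) ∧
        (i + 1 ∈ Js → cn c (κ (i + 1)) N + L = g (i + 1)) := by
      by_cases hJ : i + 1 ∈ Js
      · have h1 := h.room hJ (Nat.lt_succ_self i)
        have h2 := (h.tgt (i + 1) hJ (hE.lt (i + 1) (by omega) him)).1
        exact ⟨g (i + 1) - cn c (κ (i + 1)) N, fun h3 => absurd hJ h3, fun _ => by omega⟩
      · have hex : ∃ L, ∀ k ∈ Js, p k < i + 1 → sig p κ c s g k ≠ N + L := by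
          refine ⟨(Js.sup (sig p κ c s g)) + 1, fun k hk _ h1 => ?_⟩
          have h2 : sig p κ c s g k ≤ Js.sup (sig p κ c s g) := Finset.le_sup hk
          omega
        classical
        refine ⟨Nat.find hex, fun _ => ⟨fun x hx => ?_, Nat.find_spec hex⟩,
          fun h3 => absurd h3 hJ⟩
        have h1 := Nat.find_min hex hx
        push Not at h1
        exact h1
    obtain ⟨g', hg'⟩ := (h.ext hE hκ0 hκ him L hL1 hL2).plan_next hE hκ
    exact ⟨_, _, _, g', hg'⟩

end st

theorem exists_class {m : ℕ} {p : ℕ → ℕ} (hp : ∀ i, 1 ≤ i → i ≤ m → p i < i) :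
    ∃ κ : ℕ → Bool, κ 0 = false ∧ ∀ i, 1 ≤ i → i ≤ m → κ i = !κ (p i) := by
  have h : ∀ n ≤ m, ∃ κ : ℕ → Bool, κ 0 = false ∧ ∀ i, 1 ≤ i → i ≤ n → κ i = !κ (p i) := by
    intro n
    induction n with
    | zero => exact fun _ => ⟨fun _ => false, rfl, fun i h1 h2 => by omega⟩
    | succ n ih =>
      intro hn
      obtain ⟨κ, h0, h1⟩ := ih (by omega)
      refine ⟨Function.update κ (n + 1) (!κ (p (n + 1))), ?_, ?_⟩
      · rw [Function.update_of_ne (by omega), h0]
      · intro i hi1 hi2
        have h2 := hp i hi1 (by omega)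
        rcases hi2.lt_or_eq with h3 | h3
        · rw [Function.update_of_ne (by omega), Function.update_of_ne (by omega)]
          exact h1 i hi1 (by omega)
        · subst h3
          rw [Function.update_self, Function.update_of_ne (by omega)]
  exact h m le_rfl

theorem wrd : WrdStm := by
  intro m p Js hm hE
  obtain ⟨κ, hκ0, hκ⟩ := exists_class hE.lt
  obtain ⟨N, c, s, g, h⟩ := St.all hE hκ0 hκ m le_rfl
  have hsm : ∀ k ∈ Js, sg c s p k = sig p κ c s g k := by
    intro k hk
    have h1 := hE.sub k hk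
    have h2 := hE.lt k h1.1 h1.2
    unfold sg sig
    rw [h.cls k h1.2, h.cls (p k) (by omega), h.plan k hk h1.2]
  have hlt : ∀ k ∈ Js, sig p κ c s g k < N := by
    intro k hk
    have h1 := hE.sub k hk
    have h2 := hE.lt k h1.1 h1.2
    have h3 := cn_add c (κ k) (s k)
    have h4 : (!κ k) = κ (p k) := by rw [hκ k h1.1 h1.2]; simp
    rw [h4, h.plan k hk h1.2] at h3
    have h5 := cn_lt (h.mono (p k) k h2 h1.2) (h.cls (p k) (by omega))
    have h6 := h.slt h1.2
    unfold sig
    omega
  refine ⟨s m, c, s, ⟨h.c0, ?_, h.s0, rfl, h.mono, ?_, ?_, ?_, ?_⟩, ?_⟩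
  · apply h.c1
    have h1 := h.mono 0 m (by omega) le_rfl
    have h2 := h.hN
    omega
  · intro i hi1 hi2
    have h2 := hE.lt i hi1 hi2
    rw [h.cls i hi2, h.cls (p i) (by omega), hκ i hi1 hi2]
    cases κ (p i) <;> simp
  · intro i hi1 hi2 hiJ t ht1 ht2
    rw [h.cls i hi2]
    exact h.reg i hi1 hi2 hiJ t ht1 ht2
  · intro k hk l hl hkl
    rw [hsm k hk, hsm l hl] at hkl
    have h1 := hE.sub k hk
    have h2 := hE.lt k h1.1 h1.2
    have h3 := hE.sub l hl
    have h4 := hE.lt l h3.1 h3.2
    exact h.inj k hk l hl (by omega) (by omega) hkl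
  · intro k hk
    have h1 := hE.sub k hk
    have h2 := hE.lt k h1.1 h1.2
    rw [hsm k hk]
    rcases h.hole k hk (by omega) (hlt k hk) with ⟨l, h3, h4, h5⟩ | ⟨h3, h4, h5⟩
    · exact Or.inl ⟨l, h3, h5⟩
    · exact Or.inr ⟨h3, h4⟩
  · have b1 := h.bd false
    have b2 := h.bd true
    have b3 := cn_add c false N
    have b4 := cn_add κ false (m + 1)
    have b5 : R Js κ false (m + 1) + R Js κ true (m + 1) ≤ Js.card := by
      unfold R
      rw [← card_union_of_disjoint]
      · exact card_le_card (union_subset (filter_subset _ _) (filter_subset _ _))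
      · rw [disjoint_left]
        intro x hx hy
        rw [mem_filter] at hx hy
        rw [hx.2.2] at hy
        exact absurd hy.2.2 (by simp)
    have b6 : (Js.filter (fun k => p k < m + 1 ∧ sig p κ c s g k < N ∧
        c (sig p κ c s g k) = false)).card + (Js.filter (fun k => p k < m + 1 ∧
        sig p κ c s g k < N ∧ c (sig p κ c s g k) = true)).card ≤ Js.card := by
      rw [← card_union_of_disjoint]
      · exact card_le_card (union_subset (filter_subset _ _) (filter_subset _ _))
      · rw [disjoint_left]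
        intro x hx hy
        rw [mem_filter] at hx hy
        rw [hx.2.2.2] at hy
        exact absurd hy.2.2.2 (by simp)
    have b7 : (2 * Js.card - 1) * R Js κ false (m + 1) + (2 * Js.card - 1) * R Js κ true (m + 1) ≤
        (2 * Js.card - 1) * Js.card := by
      rw [← Nat.mul_add]
      exact Nat.mul_le_mul_left _ b5
    have b8 := h.hN
    rw [show (!false) = true from rfl] at b3 b4
    have b9 : (2 * Js.card - 1) * Js.card + (Js.card - 1) + (Js.card - 1) + Js.card ≤
        2 * Js.card * (Js.card + 1) := by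
      rcases Nat.eq_zero_or_pos Js.card with h0 | h0
      · rw [h0]
      · obtain ⟨j, hj⟩ : ∃ j, Js.card = j + 1 := ⟨Js.card - 1, by omega⟩
        rw [hj]
        have e1 : 2 * (j + 1) - 1 = 2 * j + 1 := by omega
        rw [e1, Nat.add_sub_cancel]
        nlinarith
    omega

end Pool.Agent.TH56.CT
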