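import Mathlib

/-!
# Graceful supertrees of trees made of few caterpillars: definitions and the statements of the parts

The vertices of a tree are enumerated as `0, …, m` with parent function `p`, and `Js` is the set of
the jumps: if `i` is not a jump then `i` is a child of `i - 1` or a sibling of `i - 1`.
The steps `0, …, M` carry two classes (`c`), the class `false` gets the labels `0, 1, 2, …` and the
class `true` the labels `M, M - 1, …` in the order of the steps. The vertex `i` is placed at the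
step `s i`.
-/

set_option autoImplicit false

namespace Pool.Agent.TH56.CT

/-- the number of steps `u < t` of class `b` -/
def cn (c : ℕ → Bool) (b : Bool) (t : ℕ) : ℕ := ((Finset.range t).filter (fun u => c u = b)).card

/-- the step whose difference `M + 1 - sg` is the one of the edge from `k` to its parent -/
def sg (c : ℕ → Bool) (s p : ℕ → ℕ) (k : ℕ) : ℕ :=
  cn c (c (s k)) (s k) + cn c (c (s (p k))) (s (p k)) + 1

/-- enumerations of trees with the set `Js` of jumps -/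
structure Enum (m : ℕ) (p : ℕ → ℕ) (Js : Finset ℕ) : Prop where
  lt : ∀ i, 1 ≤ i → i ≤ m → p i < i
  sub : ∀ k ∈ Js, 1 ≤ k ∧ k ≤ m
  reg : ∀ i, 1 ≤ i → i ≤ m → i ∉ Js → p i + 1 = i ∨ (2 ≤ i ∧ i - 1 ∉ Js ∧ p i = p (i - 1))

/-- the steps -/
structure Good (m : ℕ) (p : ℕ → ℕ) (Js : Finset ℕ) (M : ℕ) (c : ℕ → Bool) (s : ℕ → ℕ) : Prop where
  c0 : c 0 = false
  c1 : c 1 = true
  zero : s 0 = 0
  last : s m = M
  mono : ∀ i j, i < j → j ≤ m → s i < s j
  cls : ∀ i, 1 ≤ i → i ≤ m → c (s i) ≠ c (s (p i))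
  reg : ∀ i, 1 ≤ i → i ≤ m → i ∉ Js → ∀ t, s (p i) < t → t < s i → c t = c (s i)
  inj : ∀ k ∈ Js, ∀ l ∈ Js, sg c s p k = sg c s p l → k = l
  hole : ∀ k ∈ Js, (∃ l ∈ Js, sg c s p k = s l) ∨
    ((∀ i ≤ m, s i ≠ sg c s p k) ∧ c (sg c s p k + 1) = c (sg c s p k))

/-- A graph with `m` edges is graceful if there is an injective map `f` of the vertices to
`{0, 1, …, m}` such that the edge labels `|f u - f v|` are exactly `1, …, m`. -/
def Graceful {V : Type} (T : SimpleGraph V) : Prop :=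
  ∃ f : V → ℕ, Function.Injective f ∧ (∀ v, f v ≤ T.edgeSet.ncard) ∧
    {d : ℕ | ∃ u v : V, T.Adj u v ∧ d = Int.natAbs ((f u : ℤ) - (f v : ℤ))} =
      Set.Icc 1 T.edgeSet.ncard

/-- Part I: the steps exist -/
def WrdStm : Prop := ∀ (m : ℕ) (p : ℕ → ℕ) (Js : Finset ℕ), 1 ≤ m → Enum m p Js →
  ∃ (M : ℕ) (c : ℕ → Bool) (s : ℕ → ℕ), Good m p Js M c s ∧ M ≤ m + 2 * Js.card * (Js.card + 1)

/-- Part II: the supertree on the steps `0, …, M` -/
def SupStm : Prop := ∀ (m : ℕ) (p : ℕ → ℕ) (Js : Finset ℕ) (M : ℕ) (c : ℕ → Bool) (s : ℕ → ℕ),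
  1 ≤ m → Enum m p Js → Good m p Js M c s →
  ∃ T' : SimpleGraph (Fin (M + 1)), T'.IsTree ∧ T'.edgeSet.ncard = M ∧ Graceful T' ∧
    ∀ i, 1 ≤ i → i ≤ m → ∀ a b : Fin (M + 1), (a : ℕ) = s i → (b : ℕ) = s (p i) → T'.Adj a b

/-- Part III: an enumeration of the vertices of a tree; the number on the right is the number of
leaves (or of vertices, if there is only one) of the tree obtained by deleting all leaves -/
def OrdStm : Prop := ∀ (V : Type) [Fintype V] (T : SimpleGraph V), T.IsTree → 1 ≤ T.edgeSet.ncard →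
  ∃ (v : ℕ → V) (p : ℕ → ℕ) (Js : Finset ℕ), Enum T.edgeSet.ncard p Js ∧
    (∀ i j, i ≤ T.edgeSet.ncard → j ≤ T.edgeSet.ncard → v i = v j → i = j) ∧
    (∀ x : V, ∃ i ≤ T.edgeSet.ncard, v i = x) ∧
    (∀ x y : V, T.Adj x y → ∃ i, 1 ≤ i ∧ i ≤ T.edgeSet.ncard ∧
      ((v i = x ∧ v (p i) = y) ∨ (v i = y ∧ v (p i) = x))) ∧
    (Js.card = 0 ∨ Js.card + 2 ≤ {x : V | 2 ≤ (T.neighborSet x).ncard ∧
      {y : V | T.Adj x y ∧ 2 ≤ (T.neighborSet y).ncard}.ncard ≤ 1}.ncard)

end Pool.Agent.TH56.CT
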